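import Pool.Agent.P.MP_ed1e41_co.H.Conv

/-! The supporting lines. -/

namespace Pool.Agent.P.MP_ed1e41_co.Hull

open Finset

lemma rho_anti {t : ℚ} (ht : 1 ≤ t) {i j : ℕ} (h : i ≤ j) : (t + j) / (j + 1) ≤ (t + i) / (i + 1) := by
  have h1 : (i : ℚ) ≤ j := by exact_mod_cast h
  rw [div_le_div_iff₀ (by positivity) (by positivity)]
  nlinarith [mul_nonneg (sub_nonneg.2 ht) (sub_nonneg.2 h1)]

lemma del_eq (t : ℚ) (i : ℕ) : (t + i) / (i + 1) - (t + i - 1) / (i + 2) =
    (t - 1) / ((i + 1) * (i + 2)) + 2 / (i + 2) := by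
  field_simp
  ring

lemma del_anti {t : ℚ} (ht : 1 ≤ t) {i j : ℕ} (h : i ≤ j) :
    (t + j) / (j + 1) - (t + j - 1) / (j + 2) ≤ (t + i) / (i + 1) - (t + i - 1) / (i + 2) := by
  have h1 : (i : ℚ) ≤ j := by exact_mod_cast h
  have h2 : 0 ≤ t - 1 := sub_nonneg.2 ht
  rw [del_eq, del_eq]
  gcongr

lemma del_nonneg {t : ℚ} (ht : 1 ≤ t) (i : ℕ) : 0 ≤ (t + i) / (i + 1) - (t + i - 1) / (i + 2) := by
  have h2 : 0 ≤ t - 1 := sub_nonneg.2 ht
  rw [del_eq]
  positivity

lemma kap_mono (r : ℕ) {i j d : ℕ} (h : i ≤ j) (hd : j < d) :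
    1 + (r : ℚ) / (d - i) ≤ 1 + r / (d - j) := by
  have h1 : (i : ℚ) ≤ j := by exact_mod_cast h
  have h2 : (0 : ℚ) < d - j := sub_pos.2 (by exact_mod_cast hd)
  gcongr

/-- The sign of the gain. -/
lemma phi_mono {t p q : ℚ} (ht : 1 ≤ t) (hq : 0 ≤ q) (r : ℕ) {i j d : ℕ} (h : i ≤ j) (hd : j < d)
    (h1 : q * ((t + i) / (i + 1)) ≤ p) (h2 : (t + j) / (j + 1) ≤ 1 + r / (d - j)) :
    p * (1 + r / (d - i) - (t + i) / (i + 1)) -
      q * ((t + i) / (i + 1) * (1 + r / (d - i) - (t + i - 1) / (i + 2))) ≤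
    p * (1 + r / (d - j) - (t + j) / (j + 1)) -
      q * ((t + j) / (j + 1) * (1 + r / (d - j) - (t + j - 1) / (j + 2))) := by
  have k1 := rho_anti ht h
  have k2 := del_anti ht h
  have k3 := del_nonneg ht j
  have k4 := kap_mono r h hd
  have k5 : (0 : ℚ) ≤ (t + j) / (j + 1) := by positivity
  generalize (t + i) / (i + 1) = a at *
  generalize (t + j) / (j + 1) = b at *
  generalize (t + i - 1) / (i + 2) = a' at *
  generalize (t + j - 1) / (j + 2) = b' at *
  generalize 1 + (r : ℚ) / (d - i) = x at *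
  generalize 1 + (r : ℚ) / (d - j) = y at *
  have k6 := mul_le_mul k1 k2 k3 (k5.trans k1)
  have k7 := mul_le_mul_of_nonneg_left k6 hq
  have k8 := mul_le_mul_of_nonneg_left (show x - a ≤ y - b by linarith) (sub_nonneg.2 h1)
  have k9 := mul_nonneg (mul_nonneg hq (sub_nonneg.2 k1)) (sub_nonneg.2 h2)
  nlinarith

lemma big_top {n k M : ℕ} (h : M ≤ n) : (big n k M k).card = M.choose k := by
  have : big n k M k = (range M).powersetCard k := by
    ext F
    rw [big, mem_filter, mem_powersetCard, mem_powersetCard]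
    constructor
    · rintro ⟨⟨-, h1⟩, h2⟩
      exact ⟨inter_eq_left.1 (eq_of_subset_of_card_le inter_subset_left (h1 ▸ h2)), h1⟩
    · rintro ⟨h1, h2⟩
      exact ⟨⟨h1.trans (range_subset_range.2 h), h2⟩, by rw [inter_eq_left.2 h1, h2]⟩
  rw [this, card_powersetCard, card_range]

lemma card_top {n t d : ℕ} (h : t + 2 * d ≤ n) :
    (frankl n (t + d) t d).card = (t + 2 * d).choose (t + d) := big_top h

lemma shadow_top {n t d : ℕ} (ht1 : 1 ≤ t) (h : t + 2 * d ≤ n) :
    (shadow (frankl n (t + d) t d)).card * (d + 1) = (frankl n (t + d) t d).card * (t + d) := by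
  rw [card_top h]
  obtain ⟨t, rfl⟩ : ∃ u, t = u + 1 := ⟨t - 1, by omega⟩
  rw [show t + 1 + d = t + d + 1 by ring, shadow_frankl (by omega), big_top h,
    Nat.choose_succ_right_eq, show t + 1 + 2 * d - (t + d) = d + 1 by omega]

lemma adm_frankl (n k t j : ℕ) : Adm n k t (frankl n k t j).card (frankl n k t j) := by
  have := good_fam (n := n) (k := k) (ind_j t j) fun σ τ h1 h2 => ⟨j, h1, h2⟩
  rw [← frankl_eq] at this
  exact ⟨this.sub, this.int, rfl⟩

theorem line {n t d j m : ℕ} (ht1 : 1 ≤ t) (hn : t + 2 * d + 1 ≤ n) (hj : j < d)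
    (hlt : (frankl n (t + d) t (j + 1)).card < (frankl n (t + d) t j).card)
    {𝓕 : Finset (Finset ℕ)} (h : Adm n (t + d) t m 𝓕) :
    ((m : ℤ) - (frankl n (t + d) t (j + 1)).card) * (shadow (frankl n (t + d) t j)).card +
      ((frankl n (t + d) t j).card - m) * (shadow (frankl n (t + d) t (j + 1))).card ≤
      ((frankl n (t + d) t j).card - (frankl n (t + d) t (j + 1)).card) * (shadow 𝓕).card := by
  obtain ⟨r, hr⟩ := Nat.exists_eq_add_of_le hn
  have hD := fun i (hi : i < d) => diffs ht1 hr hi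
  have htop := shadow_top (n := n) (d := d) ht1 (by omega)
  have hH := hull (p := ((shadow (frankl n (t + d) t j)).card : ℤ) -
    (shadow (frankl n (t + d) t (j + 1))).card) (q := ((frankl n (t + d) t j).card : ℤ) -
    (frankl n (t + d) t (j + 1)).card) ht1 hn (by omega) h
  obtain ⟨a, ha⟩ : ∃ a : ℕ → ℕ, ∀ i, (frankl n (t + d) t i).card = a i := ⟨_, fun _ => rfl⟩
  obtain ⟨s, hs⟩ : ∃ s : ℕ → ℕ, ∀ i, (shadow (frankl n (t + d) t i)).card = s i := ⟨_, fun _ => rfl⟩
  simp only [ha, hs] at hD htop hH hlt ⊢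
  generalize (shadow 𝓕).card = z at *
  obtain ⟨p, hp⟩ : ∃ p : ℚ, p = s j - s (j + 1) := ⟨_, rfl⟩
  obtain ⟨q, hq⟩ : ∃ q : ℚ, q = a j - a (j + 1) := ⟨_, rfl⟩
  have ht' : (1 : ℚ) ≤ t := by exact_mod_cast ht1
  have hq0 : 0 < q := by
    rw [hq, sub_pos]
    exact_mod_cast hlt
  obtain ⟨c, c0, c1, c2⟩ := hD j hj
  rw [← hq] at c1
  rw [← hp] at c2
  have k1 : ((t : ℚ) + j) / (j + 1) < 1 + r / (d - j) := by
    rw [c1] at hq0
    exact sub_pos.1 ((mul_pos_iff_of_pos_left c0).1 hq0)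
  have k2 : q * (((t : ℚ) + j) / (j + 1)) ≤ p := by
    have := mul_nonneg (mul_nonneg c0.le (show (0 : ℚ) ≤ (t + j) / (j + 1) by positivity))
      (del_nonneg ht' j)
    rw [c1, c2]
    nlinarith
  have k3 : p * (1 + r / (d - j) - (t + j) / (j + 1)) -
      q * ((t + j) / (j + 1) * (1 + r / (d - j) - (t + j - 1) / (j + 2))) = 0 := by
    rw [c1, c2]
    ring
  have up : ∀ i, j ≤ i → i ≤ d → p * a i - q * s i ≤ p * a j - q * s j := by
    intro i hi
    induction i, hi using Nat.le_induction with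
    | base => exact fun _ => le_rfl
    | succ i hi ih =>
      intro hd
      refine le_trans ?_ (ih (by omega))
      obtain ⟨e, e0, e1, e2⟩ := hD i hd
      have := phi_mono ht' hq0.le r hi hd k2
        (((rho_anti ht' hi).trans k1.le).trans (kap_mono r hi hd))
      rw [k3] at this
      have := mul_nonneg e0.le this
      push_cast at e1 e2 ⊢
      linear_combination this - p * e1 + q * e2
  have dn : ∀ i ≤ j, q * (((t : ℚ) + i) / (i + 1)) ≤ p → p * a i - q * s i ≤ p * a j - q * s j := by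
    intro i hi
    induction hi using Nat.decreasingInduction with
    | self => exact fun _ => le_rfl
    | of_succ i hi ih =>
      intro h1
      refine le_trans ?_ (ih (le_trans
        (mul_le_mul_of_nonneg_left (rho_anti ht' (Nat.le_succ i)) hq0.le) h1))
      obtain ⟨e, e0, e1, e2⟩ := hD i (by omega)
      have := phi_mono ht' hq0.le r hi.le hj h1 k1.le
      rw [k3] at this
      have := mul_nonpos_of_nonneg_of_nonpos e0.le this
      linear_combination this + p * e1 - q * e2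
  have zero : 0 ≤ p * a j - q * s j := by
    refine le_trans ?_ (up d hj.le le_rfl)
    have h1 := (mul_le_mul_of_nonneg_left (rho_anti ht' hj.le) hq0.le).trans k2
    have h2 : (s d : ℚ) = a d * ((t + d) / (d + 1)) := by
      field_simp
      exact_mod_cast htop
    have := mul_nonneg (Nat.cast_nonneg (a d)) (sub_nonneg.2 h1)
    rw [h2]
    linarith
  have fin : p * m - q * z ≤ p * a j - q * s j := by
    rcases hH with h1 | ⟨i, i1, i2, i3⟩
    · refine le_trans ?_ zero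
      rw [hp, hq]
      exact_mod_cast h1
    · refine le_trans (b := p * a i - q * s i) (by rw [hp, hq]; exact_mod_cast i3) ?_
      rcases le_total i j with e | e
      · refine dn i e ?_
        rw [← mul_div_assoc, div_le_iff₀ (by positivity), hp, hq]
        exact_mod_cast i2
      · exact up i e i1
  rw [hp, hq] at fin
  have : ((m : ℚ) - a (j + 1)) * s j + (a j - m) * s (j + 1) ≤ (a j - a (j + 1)) * z := by
    linarith
  exact_mod_cast this

lemma minShadow_spec {n k t m : ℕ} (h : ∃ 𝓕, Adm n k t m 𝓕) :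
    ∃ 𝓕, Adm n k t m 𝓕 ∧ (shadow 𝓕).card = minShadow n k t m := by
  obtain ⟨𝓕, h⟩ := h
  exact Nat.sInf_mem (s := {s | ∃ 𝓕, Adm n k t m 𝓕 ∧ (shadow 𝓕).card = s}) ⟨_, 𝓕, h, rfl⟩

lemma minShadow_le {n k t m : ℕ} {𝓕 : Finset (Finset ℕ)} (h : Adm n k t m 𝓕) :
    minShadow n k t m ≤ (shadow 𝓕).card := Nat.sInf_le ⟨𝓕, h, rfl⟩

theorem exists_index {n t d m : ℕ} (ht1 : 1 ≤ t) (hn : t + 2 * d + 1 ≤ n)
    (hm : (t + 2 * d).choose (t + d) < m) {𝓕 : Finset (Finset ℕ)} (h : Adm n (t + d) t m 𝓕) :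
    ∃ j < d, (frankl n (t + d) t (j + 1)).card < m ∧ m ≤ (frankl n (t + d) t j).card := by
  classical
  obtain ⟨i, i1, i2⟩ : ∃ i ≤ d, m ≤ (frankl n (t + d) t i).card := by
    rcases hull (p := 1) (q := 0) ht1 hn le_rfl h with h1 | ⟨i, i1, -, i3⟩
    · omega
    · exact ⟨i, i1, by omega⟩
  have h1 : m ≤ (frankl n (t + d) t
      (Nat.findGreatest (fun i => m ≤ (frankl n (t + d) t i).card) d)).card :=
    Nat.findGreatest_spec (P := fun i => m ≤ (frankl n (t + d) t i).card) i1 i2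
  have h2 : Nat.findGreatest (fun i => m ≤ (frankl n (t + d) t i).card) d < d := by
    refine lt_of_le_of_ne (Nat.findGreatest_le d) fun e => ?_
    rw [e, card_top (by omega)] at h1
    omega
  exact ⟨_, h2, not_le.1 (Nat.findGreatest_is_greatest
    (P := fun i => m ≤ (frankl n (t + d) t i).card) (Nat.lt_succ_self _) h2), h1⟩

end Pool.Agent.P.MP_ed1e41_co.Hull
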