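import Pool.Agent.P.MP_ed1e41_co.H.Mono

/-! The sizes of consecutive Frankl families and of their shadows. -/

namespace Pool.Agent.P.MP_ed1e41_co.Hull

open Finset

lemma card_three {n M a b k : ℕ} {Z : Finset ℕ} (hZ : Z ⊆ Ico M (M + 2)) (hn : M + 2 ≤ n)
    (hk : a + Z.card + b = k) :
    (((range n).powersetCard k).filter fun F =>
      (F ∩ range M).card = a ∧ F ∩ Ico M (M + 2) = Z).card =
      M.choose a * (n - (M + 2)).choose b := by
  have e : M.choose a * (n - (M + 2)).choose b =
      ((range M).powersetCard a ×ˢ (Ico (M + 2) n).powersetCard b).card := by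
    rw [card_product, card_powersetCard, card_powersetCard, card_range, Nat.card_Ico]
  have hZ' : ∀ y ∈ Z, M ≤ y ∧ y < M + 2 := fun y hy => mem_Ico.1 (hZ hy)
  have hc : ∀ H T : Finset ℕ, H ⊆ range M → T ⊆ Ico (M + 2) n →
      (H ∪ Z ∪ T).card = H.card + Z.card + T.card := fun H T h1 h2 => by
    rw [card_union_of_disjoint, card_union_of_disjoint]
    · refine disjoint_left.2 fun y y1 y2 => ?_
      have := mem_range.1 (h1 y1)
      have := hZ' y y2
      omega
    · refine disjoint_left.2 fun y y1 y2 => ?_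
      have := mem_Ico.1 (h2 y2)
      rcases mem_union.1 y1 with y3 | y3
      · have := mem_range.1 (h1 y3)
        omega
      · have := hZ' y y3
        omega
  have hi : ∀ (H T : Finset ℕ) (y : ℕ), H ⊆ range M → T ⊆ Ico (M + 2) n →
      (y ∈ H → y < M) ∧ (y ∈ Z → M ≤ y ∧ y < M + 2) ∧ (y ∈ T → M + 2 ≤ y ∧ y < n) :=
    fun H T y h1 h2 => ⟨fun h => mem_range.1 (h1 h), hZ' y, fun h => mem_Ico.1 (h2 h)⟩
  rw [e]
  symm
  refine card_bij (fun x _ => x.1 ∪ Z ∪ x.2) (fun x hx => ?_) (fun x hx x' hx' e => ?_)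
    fun F hF => ?_
  · simp only [mem_product, mem_powersetCard] at hx
    have e1 : (x.1 ∪ Z ∪ x.2) ∩ range M = x.1 := by
      ext y
      have := hi _ _ y hx.1.1 hx.2.1
      simp only [mem_inter, mem_union, mem_range]
      grind
    have e2 : (x.1 ∪ Z ∪ x.2) ∩ Ico M (M + 2) = Z := by
      ext y
      have := hi _ _ y hx.1.1 hx.2.1
      simp only [mem_inter, mem_union, mem_Ico]
      grind
    rw [mem_filter, mem_powersetCard, e1, e2, hc _ _ hx.1.1 hx.2.1]
    refine ⟨⟨fun y hy => ?_, by omega⟩, hx.1.2, rfl⟩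
    have := hi _ _ y hx.1.1 hx.2.1
    simp only [mem_union, mem_range] at hy ⊢
    grind
  · simp only [mem_product, mem_powersetCard] at hx hx'
    refine Prod.ext ?_ ?_ <;>
    · ext y
      have h1 := hi _ _ y hx.1.1 hx.2.1
      have h2 := hi _ _ y hx'.1.1 hx'.2.1
      have h3 := Finset.ext_iff.1 e y
      simp only [mem_union] at h3
      grind
  · rw [mem_filter, mem_powersetCard] at hF
    obtain ⟨⟨f1, f2⟩, f3, f4⟩ := hF
    have e1 : F ∩ range M ∪ Z ∪ F ∩ Ico (M + 2) n = F := by
      ext y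
      have := fun h : y ∈ F => mem_range.1 (f1 h)
      simp only [← f4, mem_inter, mem_union, mem_range, mem_Ico]
      grind
    have e2 := hc _ _ (inter_subset_right (s₁ := F)) (inter_subset_right (s₁ := F))
    rw [e1] at e2
    refine ⟨(F ∩ range M, F ∩ Ico (M + 2) n), ?_, e1⟩
    simp only [mem_product, mem_powersetCard]
    exact ⟨⟨inter_subset_right, f3⟩, inter_subset_right, by omega⟩

/-- Sets of size `k` with at least `c` elements below `M`. -/
def big (n k M c : ℕ) : Finset (Finset ℕ) :=
  ((range n).powersetCard k).filter fun F => c ≤ (F ∩ range M).card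

lemma card_two (F : Finset ℕ) (M : ℕ) : (F ∩ range (M + 2)).card =
    (F ∩ range M).card + (if M ∈ F then 1 else 0) + if M + 1 ∈ F then 1 else 0 := by
  have h1 := ht_succ F M
  have h2 := ht_succ F (M + 1)
  unfold ht at h1 h2
  rw [show M + 1 + 1 = M + 2 from rfl] at h2
  split_ifs at h1 h2 ⊢ <;> omega

lemma big_diff {n k c g e N : ℕ} (hn : c + g + 2 + N = n) (hk : c + e + 1 = k) :
    ((big n k (c + g) c).card : ℚ) - (big n k (c + g + 2) (c + 1)).card =
      (c + g).choose c * (N.choose (e + 1) - c / (g + 1) * N.choose e) := by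
  obtain ⟨M, hM⟩ : ∃ M, M = c + g := ⟨_, rfl⟩
  rw [← hM] at hn ⊢
  have hN : n - (M + 2) = N := by omega
  have hI : Ico M (M + 2) = {M, M + 1} := by
    ext y
    simp only [mem_Ico, mem_insert, mem_singleton]
    omega
  have h1 : big n k M c \ big n k (M + 2) (c + 1) = ((range n).powersetCard k).filter fun F =>
      (F ∩ range M).card = c ∧ F ∩ Ico M (M + 2) = ∅ := by
    ext F
    simp only [big, mem_sdiff, mem_filter, card_two, hI]
    by_cases e1 : M ∈ F <;> by_cases e2 : M + 1 ∈ F <;> simp [e1, e2, Finset.ext_iff] <;> grind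
  have h2 : ((big n k (M + 2) (c + 1) \ big n k M c).card : ℚ) =
      M.choose c * (c / (g + 1) * N.choose e) := by
    rcases c with _ | c
    · have : big n k (M + 2) (0 + 1) \ big n k M 0 = ∅ := by
        rw [sdiff_eq_empty_iff_subset]
        exact fun F hF => mem_filter.2 ⟨(mem_filter.1 hF).1, Nat.zero_le _⟩
      simp [this]
    · have h3 : big n k (M + 2) (c + 1 + 1) \ big n k M (c + 1) =
          ((range n).powersetCard k).filter fun F =>
            (F ∩ range M).card = c ∧ F ∩ Ico M (M + 2) = Ico M (M + 2) := by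
        ext F
        simp only [big, mem_sdiff, mem_filter, card_two, hI, inter_eq_right, insert_subset_iff,
          singleton_subset_iff]
        by_cases e1 : M ∈ F <;> by_cases e2 : M + 1 ∈ F <;> simp [e1, e2] <;> grind
      rw [h3, card_three (b := e) Subset.rfl (by omega) (by rw [Nat.card_Ico]; omega), hN]
      have h4 := Nat.choose_succ_right_eq M c
      rw [show M - c = g + 1 by omega] at h4
      have h5 : (M.choose (c + 1) : ℚ) * (c + 1) = M.choose c * (g + 1) := by exact_mod_cast h4
      push_cast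
      field_simp
      linear_combination -(N.choose e : ℚ) * h5
  have h3 := card_sdiff_add_card_inter (big n k M c) (big n k (M + 2) (c + 1))
  have h4 := card_sdiff_add_card_inter (big n k (M + 2) (c + 1)) (big n k M c)
  rw [h1, card_three (b := e + 1) (empty_subset _) (by omega) (by rw [card_empty]; omega), hN] at h3
  rw [inter_comm] at h4
  rw [← h3, ← h4]
  push_cast
  rw [h2]
  ring

lemma shadow_frankl {n k t j : ℕ} (hk : k + 1 ≤ n) :
    shadow (frankl n (k + 1) (t + 1) j) = big n k (t + 1 + 2 * j) (t + j) := by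
  rw [frankl_eq, shadow_fam (ind_j _ j) hk]
  ext F
  rw [mem_fam, big, mem_filter, mem_powersetCard, and_assoc]
  refine and_congr_right fun _ => and_congr (by omega) ?_
  unfold V ht
  push_cast
  omega

/-- The differences of the sizes and of the shadow sizes. -/
lemma diffs {n t d r i : ℕ} (ht1 : 1 ≤ t) (hn : n = t + 2 * d + 1 + r) (hi : i < d) :
    ∃ c : ℚ, 0 < c ∧
      ((frankl n (t + d) t i).card : ℚ) - (frankl n (t + d) t (i + 1)).card =
        c * (1 + r / (d - i) - (t + i) / (i + 1)) ∧
      ((shadow (frankl n (t + d) t i)).card : ℚ) - (shadow (frankl n (t + d) t (i + 1))).card =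
        c * ((t + i) / (i + 1) * (1 + r / (d - i) - (t + i - 1) / (i + 2))) := by
  obtain ⟨e, rfl⟩ : ∃ e, d = i + e + 1 := ⟨d - i - 1, by omega⟩
  obtain ⟨t, rfl⟩ : ∃ u, t = u + 1 := ⟨t - 1, by omega⟩
  have h1 := big_diff (n := n) (k := t + 1 + (i + e + 1)) (c := t + 1 + i) (g := i) (e := e)
    (N := 2 * e + 1 + r) (by omega) (by omega)
  have h2 := big_diff (n := n) (k := t + (i + e + 1)) (c := t + i) (g := i + 1) (e := e)
    (N := 2 * e + 1 + r) (by omega) (by omega)
  have e1 : t + 1 + i + i = t + 1 + 2 * i := by ring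
  have e2 : t + i + (i + 1) = t + 1 + 2 * i := by ring
  have e3 : t + 1 + (i + e + 1) = t + (i + e + 1) + 1 := by ring
  rw [e1] at h1
  rw [e2] at h2
  have k1 := Nat.choose_succ_right_eq (2 * e + 1 + r) e
  rw [show 2 * e + 1 + r - e = e + 1 + r by omega] at k1
  have k2 := Nat.choose_succ_right_eq (t + 1 + 2 * i) (t + i)
  rw [show t + 1 + 2 * i - (t + i) = i + 1 by omega, show t + i + 1 = t + 1 + i by ring] at k2
  have k3 : ((2 * e + 1 + r).choose (e + 1) : ℚ) = (2 * e + 1 + r).choose e * (1 + r / (e + 1)) := by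
    field_simp
    exact_mod_cast k1
  have k4 : ((t + 1 + 2 * i).choose (t + i) : ℚ) =
      (t + 1 + 2 * i).choose (t + 1 + i) * ((t + 1 + i) / (i + 1)) := by
    field_simp
    exact_mod_cast k2.symm
  refine ⟨(t + 1 + 2 * i).choose (t + 1 + i) * (2 * e + 1 + r).choose e, mul_pos ?_ ?_, ?_, ?_⟩
  · exact_mod_cast Nat.choose_pos (by omega)
  · exact_mod_cast Nat.choose_pos (by omega)
  · refine Eq.trans h1 ?_
    rw [k3]
    push_cast
    ring
  · rw [e3, shadow_frankl (by omega), shadow_frankl (by omega)]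
    refine Eq.trans h2 ?_
    rw [k3, k4]
    push_cast
    ring

end Pool.Agent.P.MP_ed1e41_co.Hull
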