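import Pool.Agent.P.MP_ed1e41_co.H.Pre

/-! Families that are given by a property of the sign pattern. -/

namespace Pool.Agent.P.MP_ed1e41_co.Hull

open Finset

/-- `X` is monotone and depends only on the signs from the time `M` on. -/
def Ind (t M : ℕ) (X : (ℕ → Prop) → Prop) : Prop :=
  ∀ σ τ, X σ → (∀ i, M ≤ t + 2 * i → σ i → τ i) → X τ

lemma Ind.zero {t M : ℕ} {X : (ℕ → Prop) → Prop} (h : Ind t M X) : Ind t 0 X :=
  fun σ τ h1 h2 => h σ τ h1 fun i _ => h2 i (Nat.zero_le _)

open Classical in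
/-- The family of the sets whose pattern has the property `X`. -/
noncomputable def fam (t n k : ℕ) (X : (ℕ → Prop) → Prop) (s : ℕ) : Finset (Finset ℕ) :=
  (Tl 0 n k s).filter fun T => X (V t s T)

lemma card_fam (t n k : ℕ) (X : (ℕ → Prop) → Prop) (s : ℕ) :
    (fam t n k X s).card = cnt t 0 n k X s := rfl

lemma mem_fam {t n k s : ℕ} {X : (ℕ → Prop) → Prop} {F : Finset ℕ} :
    F ∈ fam t n k X s ↔ F ⊆ range n ∧ s + F.card = k ∧ X (V t s F) := by
  simp only [fam, mem_filter, mem_Tl, range_eq_Ico, and_assoc]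

lemma ht_union {M n x : ℕ} {H T : Finset ℕ} (hH : H ⊆ range M) (hT : T ⊆ Ico M n) (hx : M ≤ x) :
    ht (H ∪ T) x = 2 * H.card + ht T x := by
  have hd : Disjoint H (T ∩ range x) := disjoint_left.2 fun y h1 h2 => by
    have := mem_range.1 (hH h1)
    have := (mem_Ico.1 (hT (mem_inter.1 h2).1)).1
    omega
  unfold ht
  rw [union_inter_distrib_right, inter_eq_left.2 (hH.trans (range_subset_range.2 hx)),
    card_union_of_disjoint hd]
  push_cast
  ring

lemma cnt_split {t M n k s : ℕ} {X : (ℕ → Prop) → Prop} (hX : Ind t M X) (hM : M ≤ n) :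
    cnt t 0 n k X s = ∑ a ∈ range (M + 1), M.choose a * cnt t M n k X (s + a) := by
  classical
  have h1 := sum_powerset_apply_card (fun a => cnt t M n k X (s + a)) (x := range M)
  simp only [card_range, smul_eq_mul] at h1
  rw [← h1, ← card_fam, card_eq_sum_card_fiberwise (f := fun F => F ∩ range M)
    (t := (range M).powerset) fun F _ => mem_coe.2 (mem_powerset.2 inter_subset_right)]
  refine sum_congr rfl fun H hH => ?_
  rw [mem_powerset] at hH
  have hV : ∀ T ⊆ Ico M n, X (V t s (H ∪ T)) ↔ X (V t (s + H.card) T) := fun T hT => by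
    constructor
    · refine fun h => hX _ _ h fun i i1 i2 => ?_
      unfold V at i2 ⊢
      rw [ht_union hH hT i1] at i2
      push_cast
      omega
    · refine fun h => hX _ _ h fun i i1 i2 => ?_
      unfold V at i2 ⊢
      rw [ht_union hH hT i1]
      push_cast at i2
      omega
  have hd : ∀ T ⊆ Ico M n, Disjoint H T := fun T hT => disjoint_left.2 fun y h1 h2 => by
    have := mem_range.1 (hH h1)
    have := (mem_Ico.1 (hT h2)).1
    omega
  symm
  refine card_bij (fun T _ => H ∪ T) (fun T hT => ?_) (fun T hT T' hT' e => ?_) fun F hF => ?_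
  · rw [mem_filter, mem_Tl] at hT
    rw [mem_filter, mem_fam, card_union_of_disjoint (hd T hT.1.1), hV T hT.1.1]
    refine ⟨⟨union_subset (hH.trans (range_subset_range.2 hM)) (hT.1.1.trans (Ico_sub M n)),
      by omega, hT.2⟩, ?_⟩
    ext y
    simp only [mem_inter, mem_union, mem_range]
    refine ⟨fun h => h.1.resolve_right fun h2 => ?_, fun h => ⟨Or.inl h, mem_range.1 (hH h)⟩⟩
    have := (mem_Ico.1 (hT.1.1 h2)).1
    omega
  · rw [mem_filter, mem_Tl] at hT hT'
    rw [← union_sdiff_cancel_left (hd T hT.1.1), e, union_sdiff_cancel_left (hd T' hT'.1.1)]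
  · rw [mem_filter, mem_fam] at hF
    obtain ⟨⟨f1, f2, f3⟩, f4⟩ := hF
    have hT : F \ range M ⊆ Ico M n := fun y hy => by
      rw [mem_sdiff, mem_range] at hy
      exact mem_Ico.2 ⟨not_lt.1 hy.2, mem_range.1 (f1 hy.1)⟩
    have e : H ∪ F \ range M = F := by rw [← f4, union_comm, sdiff_union_inter]
    refine ⟨F \ range M, ?_, e⟩
    rw [mem_filter, mem_Tl, ← hV _ hT, e]
    refine ⟨⟨hT, ?_⟩, f3⟩
    rw [← e, card_union_of_disjoint (hd _ hT)] at f2
    omega

/-- The least element that is missing. -/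
noncomputable def run (F : Finset ℕ) : ℕ := sInf {x | x ∉ F}

lemma run_notMem (F : Finset ℕ) : run F ∉ F := Nat.sInf_mem (Infinite.exists_notMem_finset F)

lemma mem_of_lt_run {F : Finset ℕ} {x : ℕ} (h : x < run F) : x ∈ F :=
  not_not.1 (Nat.notMem_of_lt_sInf h)

lemma run_le {F : Finset ℕ} {x : ℕ} (h : x ∉ F) : run F ≤ x := Nat.sInf_le h

lemma run_le_card (F : Finset ℕ) : run F ≤ F.card := by
  simpa using card_le_card
    (show range (run F) ⊆ F from fun x hx => mem_of_lt_run (mem_range.1 hx))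

lemma ht_insert {F : Finset ℕ} {y : ℕ} (hy : y ∉ F) (x : ℕ) :
    ht (insert y F) x = ht F x + if y < x then 2 else 0 := by
  unfold ht
  split_ifs with h
  · rw [insert_inter_of_mem (mem_range.2 h), card_insert_of_notMem (by simp [hy])]
    push_cast
    ring
  · rw [insert_inter_of_notMem (by simpa using h)]
    ring

lemma ht_of_le_run {F : Finset ℕ} {x : ℕ} (h : x ≤ run F) : ht F x = x := by
  rw [ht, inter_eq_right.2 fun y hy => mem_of_lt_run (by have := mem_range.1 hy; omega),
    card_range]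
  ring

lemma shadow_fam {t n k : ℕ} {X : (ℕ → Prop) → Prop} (hX : Ind t 0 X) (hk : k ≤ n) :
    shadow (fam t n k X 0) = fam t n k X 1 := by
  ext G
  rw [mem_shadow_iff_insert_mem, mem_fam]
  constructor
  · rintro ⟨y, hy, h⟩
    rw [mem_fam, card_insert_of_notMem hy] at h
    refine ⟨(subset_insert _ _).trans h.1, by omega, hX _ _ h.2.2 fun i _ hi => ?_⟩
    unfold V at hi ⊢
    rw [ht_insert hy] at hi
    split_ifs at hi <;> omega
  · rintro ⟨h1, h2, h3⟩
    refine ⟨run G, run_notMem G, ?_⟩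
    rw [mem_fam, card_insert_of_notMem (run_notMem G)]
    have := run_le_card G
    refine ⟨insert_subset (mem_range.2 (by omega)) h1, by omega, hX _ _ h3 fun i _ hi => ?_⟩
    unfold V at hi ⊢
    rw [ht_insert (run_notMem G)]
    split_ifs with h
    · omega
    · rw [ht_of_le_run (not_lt.1 h)]
      omega

/-- The weighted count. -/
lemma cnt_comb {t a n k : ℕ} {X : (ℕ → Prop) → Prop} (hX : Ind t (t + 2 * a) X)
    (hM : t + 2 * a ≤ n) :
    ((t : ℤ) + a) * cnt t 0 n k X 0 - (a + 1) * cnt t 0 n k X 1 =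
      ∑ s ∈ range (t + 2 * a + 2), ((t : ℤ) + a - s) * (t + 2 * a + 1).choose s *
        cnt t (t + 2 * a) n k X s := by
  rw [cnt_split hX hM, cnt_split hX hM]
  generalize cnt t (t + 2 * a) n k X = N
  obtain ⟨M, hM'⟩ : ∃ M, M = t + 2 * a := ⟨_, rfl⟩
  rw [← hM']
  have e1 : ∑ s ∈ range (M + 1), M.choose s * N (0 + s) =
      ∑ s ∈ range (M + 1), M.choose (s + 1) * N (s + 1) + N 0 := by
    rw [sum_range_succ (fun s => M.choose (s + 1) * N (s + 1)), Nat.choose_succ_self,
      sum_range_succ']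
    simp
  rw [e1, sum_range_succ' _ (M + 1)]
  push_cast
  rw [mul_add, mul_sum, mul_sum, add_sub_right_comm, ← sum_sub_distrib]
  congr 1
  · refine sum_congr rfl fun s hs => ?_
    rw [mem_range] at hs
    have h1 : (M.choose (s + 1) : ℤ) * (s + 1) = M.choose s * (M - s) := by
      have := Nat.choose_succ_right_eq M s
      zify [show s ≤ M by omega] at this
      exact this
    have h2 : ((M + 1).choose (s + 1) : ℤ) = M.choose s + M.choose (s + 1) := by
      exact_mod_cast Nat.choose_succ_succ M s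
    have h3 : (M : ℤ) = t + 2 * a := by exact_mod_cast hM'
    rw [h2, add_comm 1 s]
    rw [h3] at h1
    linear_combination (N (s + 1) : ℤ) * h1
  · simp

lemma choose_le_of {N x y : ℕ} (h1 : x ≤ y) (h2 : x + y ≤ N) : N.choose x ≤ N.choose y := by
  have key : ∀ y, x ≤ y → 2 * y ≤ N → N.choose x ≤ N.choose y := by
    intro y hy
    induction y, hy using Nat.le_induction with
    | base => exact fun _ => le_rfl
    | succ y hy ih =>
      exact fun h => (ih (by omega)).trans (Nat.choose_le_succ_of_lt_half_left (by omega))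
  by_cases h : 2 * y ≤ N
  · exact key y h1 h
  · rw [← Nat.choose_symm (show y ≤ N by omega)]
    exact key _ (by omega) (by omega)

/-- Pairing of the levels. -/
lemma sum_pair {t a : ℕ} (ht : 1 ≤ t) (D : ℕ → ℤ) (h1 : ∀ s, s < t + a → 0 ≤ D s)
    (h2 : ∀ u v, v + u = t + a → D (t + a + u) ≤ D v) :
    0 ≤ ∑ s ∈ range (t + 2 * a + 2), ((t : ℤ) + a - s) * (t + 2 * a + 1).choose s * D s := by
  have e : t + 2 * a + 2 = (t + a + 1) + (a + 1) := by ring
  rw [e, sum_range_add, sum_range_succ, ← sum_range_reflect]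
  have e2 : range (t + a) = range (a + 1 + (t - 1)) := by
    congr 1
    omega
  rw [e2, sum_range_add]
  push_cast
  rw [sub_self, zero_mul, zero_mul, add_zero, add_right_comm, ← sum_add_distrib]
  refine add_nonneg (sum_nonneg fun u hu => ?_) (sum_nonneg fun u hu => ?_)
  · rw [mem_range] at hu
    obtain ⟨v, hv⟩ : ∃ v, v + (u + 1) = t + a := ⟨t + a - (u + 1), by omega⟩
    have e3 : t + a - 1 - u = v := by omega
    have e4 : t + a + 1 + u = t + a + (u + 1) := by ring
    have e5 : (t : ℤ) + a - v = u + 1 := by omega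
    have e6 : (t : ℤ) + a - (t + a + 1 + u) = -(u + 1) := by ring
    rw [e3, e4, e5, e6]
    have k1 := h1 v (by omega)
    have k2 := h2 _ _ hv
    have k3 : (((t + 2 * a + 1).choose (t + a + (u + 1)) : ℕ) : ℤ) ≤ (t + 2 * a + 1).choose v := by
      rw [← Nat.choose_symm (show t + a + (u + 1) ≤ t + 2 * a + 1 by omega)]
      exact_mod_cast choose_le_of (by omega) (by omega)
    have k4 : (0 : ℤ) ≤ ((t + 2 * a + 1).choose (t + a + (u + 1)) : ℕ) := by positivity
    have k5 := mul_le_mul k3 le_rfl k1 (k4.trans k3)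
    have k6 := mul_le_mul_of_nonneg_left k2 k4
    have k7 : (0 : ℤ) ≤ u + 1 := by positivity
    nlinarith [mul_le_mul_of_nonneg_left (k6.trans k5) k7]
  · rw [mem_range] at hu
    refine mul_nonneg (mul_nonneg ?_ (by positivity)) (h1 _ (by omega))
    omega

end Pool.Agent.P.MP_ed1e41_co.Hull
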