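import Pool.Agent.P.MP_ed1e41_co.H.Pat

/-! The exchange of critical sets. -/

namespace Pool.Agent.P.MP_ed1e41_co.Hull

open Finset

lemma shifted_of_adj {𝓕 : Finset (Finset ℕ)}
    (h : ∀ F ∈ 𝓕, ∀ y, y + 1 ∈ F → y ∉ F → insert y (F.erase (y + 1)) ∈ 𝓕) : Shifted 𝓕 := by
  intro F hF i j hij
  induction j, hij using Nat.le_induction generalizing F with
  | base => exact h F hF i
  | succ j hj ih =>
    intro h1 h2
    by_cases h3 : j ∈ F
    · have h4 := h _ (ih F hF h3 h2) j (by simp [h1]) (by simp; omega)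
      have e : insert j ((insert i (F.erase j)).erase (j + 1)) = insert i (F.erase (j + 1)) := by
        ext x
        simp only [mem_insert, mem_erase]
        by_cases e1 : x = j
        · simp [e1, h3]
        · by_cases e2 : x = i
          · simp [e2]
            omega
          · simp [e1, e2]
      rwa [e] at h4
    · have h4 := ih _ (h F hF j h1 h3) (mem_insert_self _ _) (by simp [h2]; omega)
      rwa [erase_insert (by simp [h3])] at h4

lemma run_erase {F : Finset ℕ} {i : ℕ} (h : i < run F) : run (F.erase i) = i := by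
  refine le_antisymm (run_le (notMem_erase _ _)) (not_lt.1 fun h1 => ?_)
  exact run_notMem _ (mem_erase.2 ⟨h1.ne, mem_of_lt_run (h1.trans h)⟩)

lemma card_shadow_run {𝓕 : Finset (Finset ℕ)} (h : Shifted 𝓕) :
    (shadow 𝓕).card = ∑ F ∈ 𝓕, run F := by
  have e : ∑ F ∈ 𝓕, run F = (𝓕.sigma fun F => range (run F)).card := by simp [card_sigma]
  rw [e]
  symm
  refine card_bij (fun x _ => x.1.erase x.2) (fun x hx => ?_) (fun x hx y hy e => ?_) fun G hG => ?_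
  · rw [mem_sigma, mem_range] at hx
    exact erase_mem_shadow hx.1 (mem_of_lt_run hx.2)
  · rw [mem_sigma, mem_range] at hx hy
    have e1 : x.2 = y.2 := by rw [← run_erase hx.2, e, run_erase hy.2]
    have e2 : x.1 = y.1 := by
      rw [← insert_erase (mem_of_lt_run hx.2), e, e1, insert_erase (mem_of_lt_run hy.2)]
    exact Sigma.ext e2 (heq_of_eq e1)
  · obtain ⟨y, hy, h1⟩ := mem_shadow_iff_insert_mem.1 hG
    refine ⟨⟨insert (run G) G, run G⟩, ?_, erase_insert (run_notMem G)⟩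
    rw [mem_sigma, mem_range]
    constructor
    · rcases (run_le hy).eq_or_lt with e | e
      · exact e ▸ h1
      · have := h _ h1 _ _ e (mem_insert_self _ _) (by simp [run_notMem, e.ne])
        rwa [erase_insert hy] at this
    · refine not_le.1 fun h2 => run_notMem (insert (run G) G) ?_
      rcases h2.eq_or_lt with e | e
      · exact mem_insert.2 (Or.inl e)
      · exact mem_insert_of_mem (mem_of_lt_run e)

/-- Moves `x` to `x + 1`. -/
def sw (x : ℕ) (F : Finset ℕ) : Finset ℕ := insert (x + 1) (F.erase x)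

lemma mem_sw {x y : ℕ} {F : Finset ℕ} : y ∈ sw x F ↔ y = x + 1 ∨ (y ≠ x ∧ y ∈ F) := by simp [sw]

lemma us_sw {x : ℕ} {F : Finset ℕ} (h1 : x ∈ F) (h2 : x + 1 ∉ F) :
    insert x ((sw x F).erase (x + 1)) = F := by
  rw [sw, erase_insert (by simp [h2]), insert_erase h1]

lemma sw_us {x : ℕ} {F : Finset ℕ} (h1 : x + 1 ∈ F) (h2 : x ∉ F) :
    sw x (insert x (F.erase (x + 1))) = F := by
  rw [sw, erase_insert (by simp [h2]), insert_erase h1]

lemma ht_sw {x : ℕ} {F : Finset ℕ} (h1 : x ∈ F) (h2 : x + 1 ∉ F) (y : ℕ) :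
    ht (sw x F) y = ht F y - if y = x + 1 then 2 else 0 := by
  have e1 := ht_insert (notMem_erase x F) y
  rw [insert_erase h1] at e1
  rw [sw, ht_insert (by simp [h2]), e1]
  split_ifs <;> omega

lemma run_sw {x : ℕ} {F : Finset ℕ} : run (sw x F) ≤ run F := by
  by_cases h : run F = x + 1
  · have : run (sw x F) ≤ x := run_le (by simp [mem_sw])
    omega
  · exact run_le (by simp [mem_sw, h, run_notMem])

lemma sw_comm {x y : ℕ} {F : Finset ℕ} (h1 : y ≠ x) (h2 : y ≠ x + 1) (h3 : y + 1 ≠ x) :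
    sw x (insert y (F.erase (y + 1))) = insert y ((sw x F).erase (y + 1)) := by
  ext z
  simp only [mem_sw, mem_insert, mem_erase]
  by_cases e1 : z = y
  · simp [e1, h1]
  · by_cases e2 : z = x + 1
    · simp [e2, h1.symm]
    · simp only [e1, e2, false_or]
      tauto

/-- Shifted `t`-intersecting families. -/
structure Good (n k t : ℕ) (𝓕 : Finset (Finset ℕ)) : Prop where
  sub : 𝓕 ⊆ (range n).powersetCard k
  int : ∀ F ∈ 𝓕, ∀ G ∈ 𝓕, t ≤ (F ∩ G).card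
  sh : Shifted 𝓕

/-- Critical sets. -/
def Crit (𝓕 : Finset (Finset ℕ)) (x : ℕ) (c : ℤ) : Finset (Finset ℕ) :=
  𝓕.filter fun F => x ∈ F ∧ x + 1 ∉ F ∧ sw x F ∉ 𝓕 ∧ ht F (x + 1) = c

lemma mem_Crit {𝓕 : Finset (Finset ℕ)} {x : ℕ} {c : ℤ} {F : Finset ℕ} :
    F ∈ Crit 𝓕 x c ↔ F ∈ 𝓕 ∧ x ∈ F ∧ x + 1 ∉ F ∧ sw x F ∉ 𝓕 ∧ ht F (x + 1) = c := mem_filter

lemma conflict {n k t x : ℕ} {𝓕 : Finset (Finset ℕ)} (h : Good n k t 𝓕) {F G : Finset ℕ}
    (hF : F ∈ 𝓕) (hG : G ∈ 𝓕) (h1 : x ∈ F) (h2 : x + 1 ∉ F) (hc : (sw x F ∩ G).card < t) :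
    G ∈ Crit 𝓕 x (2 * t - ht F (x + 1)) := by
  have h0 := h.int F hF G hG
  have hsub : (F ∩ G).erase x ⊆ sw x F ∩ G := fun y hy => by
    simp only [mem_erase, mem_inter, mem_sw] at hy ⊢
    tauto
  have hx : x ∈ G := by
    by_contra hx
    rw [erase_eq_of_notMem (by simp [hx])] at hsub
    have := card_le_card hsub
    omega
  have hxm : x ∈ F ∩ G := mem_inter.2 ⟨h1, hx⟩
  have h3 := card_erase_of_mem hxm
  have h4 := card_le_card hsub
  have hx1 : x + 1 ∉ G := fun hx1 => by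
    have h5 : insert (x + 1) ((F ∩ G).erase x) ⊆ sw x F ∩ G :=
      insert_subset (by simp [mem_sw, hx1]) hsub
    have := card_le_card h5
    rw [card_insert_of_notMem (by simp [h2])] at this
    omega
  have key : ∀ y z, y ∉ F → z ∈ F ∩ G → insert y (G.erase z) ∉ 𝓕 := fun y z hy hz hm => by
    have h5 := h.int F hF _ hm
    rw [inter_insert_of_notMem hy, inter_erase, card_erase_of_mem hz] at h5
    omega
  refine mem_Crit.2 ⟨hG, hx, hx1, key _ _ h2 hxm, ?_⟩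
  have h5 : (F ∪ G) ∩ range (x + 1) = range (x + 1) := inter_eq_right.2 fun y hy => by
    by_contra hc
    rw [mem_union, not_or] at hc
    have h6 : y ≠ x := fun e => hc.1 (e ▸ h1)
    have := mem_range.1 hy
    exact key y x hc.1 hxm (h.sh G hG y x (by omega) hx hc.2)
  have h6 : F ∩ G ∩ range (x + 1) = F ∩ G := inter_eq_left.2 fun z hz => by
    by_contra hc
    have h7 : z ≠ x + 1 := fun e => h2 (e ▸ (mem_inter.1 hz).1)
    rw [mem_range] at hc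
    exact key (x + 1) z h2 hz (h.sh G hG (x + 1) z (by omega) (mem_inter.1 hz).2 hx1)
  have h7 := card_union_add_card_inter (F ∩ range (x + 1)) (G ∩ range (x + 1))
  rw [← union_inter_distrib_right, h5, card_range, inter_inter_inter_comm, inter_self, h6] at h7
  unfold ht
  push_cast
  omega

/-- The exchange. -/
def Ex (𝓕 : Finset (Finset ℕ)) (x : ℕ) (c c' : ℤ) : Finset (Finset ℕ) :=
  𝓕 \ Crit 𝓕 x c' ∪ (Crit 𝓕 x c).image (sw x)

lemma Good.ex {n k t x : ℕ} {𝓕 : Finset (Finset ℕ)} (h : Good n k t 𝓕) (hx : x + 1 < n) {c c' : ℤ}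
    (hc : c + c' = 2 * t) (hne : c ≠ c') : Good n k t (Ex 𝓕 x c c') := by
  have hmem : ∀ G, G ∈ Ex 𝓕 x c c' ↔ (G ∈ 𝓕 ∧ G ∉ Crit 𝓕 x c') ∨ ∃ F ∈ Crit 𝓕 x c, sw x F = G :=
    fun G => by simp only [Ex, mem_union, mem_sdiff, mem_image]
  have hmix : ∀ F ∈ Crit 𝓕 x c, ∀ G ∈ 𝓕, G ∉ Crit 𝓕 x c' → t ≤ (sw x F ∩ G).card := by
    intro F hF G hG hG'
    rw [mem_Crit] at hF
    refine not_lt.1 fun hlt => hG' ?_
    have := conflict h hF.1 hG hF.2.1 hF.2.2.1 hlt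
    rwa [hF.2.2.2.2, show 2 * (t : ℤ) - c = c' by omega] at this
  refine ⟨fun G hG => ?_, fun G hG G' hG' => ?_, shifted_of_adj fun G hG y y1 y2 => ?_⟩
  · rcases (hmem G).1 hG with h1 | ⟨F, hF, rfl⟩
    · exact h.sub h1.1
    · rw [mem_Crit] at hF
      have h1 := mem_powersetCard.1 (h.sub hF.1)
      exact mem_powersetCard.2 ⟨insert_subset (mem_range.2 hx) ((erase_subset _ _).trans h1.1),
        (card_shift hF.2.2.1 hF.2.1).trans h1.2⟩
  · rcases (hmem G).1 hG with h1 | ⟨F, hF, rfl⟩ <;> rcases (hmem G').1 hG' with h2 | ⟨F', hF', rfl⟩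
    · exact h.int _ h1.1 _ h2.1
    · rw [inter_comm]
      exact hmix _ hF' _ h1.1 h1.2
    · exact hmix _ hF _ h2.1 h2.2
    · rw [mem_Crit] at hF hF'
      have e : sw x F ∩ sw x F' = insert (x + 1) ((F ∩ F').erase x) := by
        ext z
        simp only [mem_inter, mem_sw, mem_insert, mem_erase]
        tauto
      rw [e, card_shift (by simp [hF.2.2.1]) (by simp [hF.2.1, hF'.2.1])]
      exact h.int _ hF.1 _ hF'.1
  · have hht : ∀ F : Finset ℕ, y + 1 ∈ F → y ∉ F → y ≠ x →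
        ht (insert y (F.erase (y + 1))) (x + 1) = ht F (x + 1) := fun F f1 f2 f3 => by
      have := ht_sw (x := y) (F := insert y (F.erase (y + 1))) (by simp) (by simp) (x + 1)
      rw [sw_us f1 f2, if_neg (by omega)] at this
      omega
    rw [hmem]
    rcases (hmem G).1 hG with h1 | ⟨F, hF, rfl⟩
    · refine Or.inl ⟨h.sh G h1.1 y (y + 1) (by omega) y1 y2, fun hc => ?_⟩
      rw [mem_Crit] at hc
      obtain ⟨-, c1, c2, c3, c4⟩ := hc
      have e1 : y ≠ x := fun e => c3 (by rw [← e, sw_us y1 y2]; exact h1.1)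
      have e2 : y ≠ x + 1 := fun e => c2 (by simp [e])
      have e3 : y + 1 ≠ x := fun e => by simp [← e] at c1
      have c5 : x ∈ G := by simpa [e1.symm, e3.symm] using c1
      have c6 : x + 1 ∉ G := by simpa [e1.symm, e2.symm] using c2
      refine h1.2 (mem_Crit.2 ⟨h1.1, c5, c6, fun c7 => c3 ?_, by rw [← hht G y1 y2 e1, c4]⟩)
      rw [sw_comm e1 e2 e3]
      exact h.sh _ c7 y (y + 1) (by omega) (by simp [mem_sw, y1, e3]) (by simp [mem_sw, y2, e2])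
    · rw [mem_Crit] at hF
      obtain ⟨f0, f1, f2, f3, f4⟩ := hF
      by_cases e1 : y = x
      · rw [e1, us_sw f1 f2]
        exact Or.inl ⟨f0, fun hc => hne (f4.symm.trans (mem_Crit.1 hc).2.2.2.2)⟩
      have e2 : y ≠ x + 1 := fun e => y2 (by simp [e, mem_sw])
      have e3 : y + 1 ≠ x := fun e => by simp [← e, mem_sw] at y1
      have c5 : y + 1 ∈ F := by simpa [mem_sw, e1, e3] using y1
      have c6 : y ∉ F := by simpa [mem_sw, e1, e2] using y2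
      rw [← sw_comm e1 e2 e3]
      by_cases c7 : sw x (insert y (F.erase (y + 1))) ∈ 𝓕
      · exact Or.inl ⟨c7, fun hc => by simpa [mem_sw] using (mem_Crit.1 hc).2.1⟩
      · exact Or.inr ⟨_, mem_Crit.2 ⟨h.sh F f0 y (y + 1) (by omega) c5 c6,
          by simp [f1, e3.symm], by simp [f2, e2.symm], c7, by rw [hht F c5 c6 e1, f4]⟩, rfl⟩

lemma sum_Ex (𝓕 : Finset (Finset ℕ)) (x : ℕ) (c c' : ℤ) (f : Finset ℕ → ℤ) :
    ∑ F ∈ Ex 𝓕 x c c', f F =
      ∑ F ∈ 𝓕, f F - ∑ F ∈ Crit 𝓕 x c', f F + ∑ F ∈ Crit 𝓕 x c, f (sw x F) := by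
  rw [Ex, sum_union, sum_sdiff_eq_sub (show Crit 𝓕 x c' ⊆ 𝓕 from filter_subset _ _), sum_image]
  · intro F hF G hG e
    rw [mem_coe, mem_Crit] at hF hG
    rw [← us_sw hF.2.1 hF.2.2.1, e, us_sw hG.2.1 hG.2.2.1]
  · refine disjoint_left.2 fun G h1 h2 => ?_
    obtain ⟨F, hF, rfl⟩ := mem_image.1 h2
    exact (mem_Crit.1 hF).2.2.2.1 (mem_sdiff.1 h1).1

/-- An optimal family in which only peaks at the height `t` are critical. -/
theorem exists_opt (n k t : ℕ) (p q : ℤ) (hq : 0 ≤ q) : ∃ 𝓕, Good n k t 𝓕 ∧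
    (∀ 𝓖, Good n k t 𝓖 → p * 𝓖.card - q * (shadow 𝓖).card ≤ p * 𝓕.card - q * (shadow 𝓕).card) ∧
    ∀ F ∈ 𝓕, ∀ x, x + 1 < n → x ∈ F → x + 1 ∉ F → ht F (x + 1) ≠ t → sw x F ∈ 𝓕 := by
  classical
  let W : Finset (Finset ℕ) → ℤ := fun 𝓖 => ∑ F ∈ 𝓖, (p - q * run F)
  let P : Finset (Finset ℕ) → ℤ := fun 𝓖 => ∑ F ∈ 𝓖, ((∑ y ∈ F, y : ℕ) : ℤ)
  have hW : ∀ 𝓖, Good n k t 𝓖 → p * 𝓖.card - q * (shadow 𝓖).card = W 𝓖 := fun 𝓖 h => by
    simp only [W, card_shadow_run h.sh, sum_sub_distrib, sum_const, nsmul_eq_mul, ← mul_sum]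
    push_cast
    ring
  let U := ((range n).powersetCard k).powerset.filter (Good n k t)
  have hU : ∀ 𝓖, 𝓖 ∈ U ↔ Good n k t 𝓖 := fun 𝓖 => by
    simp only [U, mem_filter, mem_powerset]
    exact ⟨fun h => h.2, fun h => ⟨h.sub, h⟩⟩
  obtain ⟨𝓐, a1, a2⟩ := exists_max_image U W
    ⟨∅, (hU _).2 ⟨empty_subset _, by simp, by simp [Shifted]⟩⟩
  obtain ⟨𝓕, f1, f2⟩ := exists_max_image (U.filter fun 𝓖 => W 𝓖 = W 𝓐) P
    ⟨𝓐, mem_filter.2 ⟨a1, rfl⟩⟩
  rw [mem_filter, hU] at f1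
  refine ⟨𝓕, f1.1, fun 𝓖 h => by rw [hW _ h, hW _ f1.1, f1.2]; exact a2 _ ((hU _).2 h), ?_⟩
  intro F hF x x1 x2 x3 x4
  by_contra x5
  obtain ⟨c, hc⟩ : ∃ c, ht F (x + 1) = c := ⟨_, rfl⟩
  have g1 := f1.1.ex x1 (c := c) (c' := 2 * t - c) (by ring) (by omega)
  have g2 := f1.1.ex x1 (c := 2 * t - c) (c' := c) (by ring) (by omega)
  have w0 : ∀ c, ∑ G ∈ Crit 𝓕 x c, (p - q * run G) ≤ ∑ G ∈ Crit 𝓕 x c, (p - q * run (sw x G)) :=
    fun c => sum_le_sum fun G _ =>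
      sub_le_sub_left (mul_le_mul_of_nonneg_left (Int.ofNat_le.2 run_sw) hq) _
  have w1 := a2 _ ((hU _).2 g1)
  have w2 := a2 _ ((hU _).2 g2)
  have w3 := sum_Ex 𝓕 x c (2 * t - c) fun F => p - q * run F
  have w4 := sum_Ex 𝓕 x (2 * t - c) c fun F => p - q * run F
  have w5 := w0 c
  have w6 := w0 (2 * t - c)
  have w7 := f1.2
  have p1 := f2 _ (mem_filter.2 ⟨(hU _).2 g1, by simp only [W] at *; omega⟩)
  have p2 := f2 _ (mem_filter.2 ⟨(hU _).2 g2, by simp only [W] at *; omega⟩)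
  have p0 : ∀ c, ∑ G ∈ Crit 𝓕 x c, ((∑ y ∈ sw x G, y : ℕ) : ℤ) =
      ∑ G ∈ Crit 𝓕 x c, ((∑ y ∈ G, y : ℕ) : ℤ) + (Crit 𝓕 x c).card := fun c => by
    rw [card_eq_sum_ones, Nat.cast_sum (Crit 𝓕 x c), ← sum_add_distrib]
    refine sum_congr rfl fun G hG => ?_
    rw [mem_Crit] at hG
    have := sum_shift hG.2.2.1 hG.2.1
    unfold sw
    omega
  have p3 := sum_Ex 𝓕 x c (2 * t - c) fun F => ((∑ y ∈ F, y : ℕ) : ℤ)
  have p4 := sum_Ex 𝓕 x (2 * t - c) c fun F => ((∑ y ∈ F, y : ℕ) : ℤ)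
  have p5 : 0 < (Crit 𝓕 x c).card := card_pos.2 ⟨F, mem_Crit.2 ⟨hF, x2, x3, x5, hc⟩⟩
  rw [p0] at p3 p4
  simp only [P] at p1 p2
  omega

end Pool.Agent.P.MP_ed1e41_co.Hull
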