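import Pool.Agent.P.MP_ed1e41_co.H.Exch
import Pool.Agent.P.MP_ed1e41_co.Walk

/-! Optimal families are given by a property of the sign pattern. -/

namespace Pool.Agent.P.MP_ed1e41_co.Hull

open Finset

/-- Only peaks at the height `t` are critical. -/
def Cl (n t : ℕ) (𝓕 : Finset (Finset ℕ)) : Prop :=
  ∀ F ∈ 𝓕, ∀ x, x + 1 < n → x ∈ F → x + 1 ∉ F → ht F (x + 1) ≠ t → sw x F ∈ 𝓕

lemma ht_le (F : Finset ℕ) (x : ℕ) : ht F x ≤ x := by
  have := card_tr_le F x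
  unfold ht
  omega

lemma V_of_eq {t x : ℕ} {F : Finset ℕ} (h : ht F x = t) : ∃ i, x = t + 2 * i := by
  have h1 := ht_le F x
  obtain ⟨c, hc⟩ := ht_par F x
  exact ⟨(x - t) / 2, by omega⟩

lemma ht_end' {n k x : ℕ} {F : Finset ℕ} (h : F ∈ (range n).powersetCard k) (hx : n ≤ x) :
    ht F x = 2 * (k : ℤ) - x := by
  rw [mem_powersetCard] at h
  rw [ht_end h.1 hx, h.2]

/-- A highest point above a walk is a peak. -/
lemma exists_peak {n y : ℕ} {F : Finset ℕ} (g : ℕ → ℤ) (hg : ∀ x, g (x + 1) ≤ g x + 1)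
    (hg' : ∀ x, g x ≤ g (x + 1) + 1) (h0 : 0 ≤ g 0) (hn : ∀ x, n ≤ x → ht F x ≤ g x)
    (hy : g y < ht F y) :
    ∃ x, x + 1 < n ∧ x ∈ F ∧ x + 1 ∉ F ∧ g (x + 1) < ht F (x + 1) := by
  have hlt : ∀ x, g x < ht F x → x < n := fun x hx => not_le.1 fun h => not_lt.2 (hn x h) hx
  obtain ⟨z, z1, z2⟩ := exists_max_image ((range n).filter fun x => g x < ht F x) (ht F)
    ⟨y, mem_filter.2 ⟨mem_range.2 (hlt y hy), hy⟩⟩
  rw [mem_filter] at z1
  have z3 : ∀ x, g x < ht F x → ht F x ≤ ht F z := fun x hx =>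
    z2 x (mem_filter.2 ⟨mem_range.2 (hlt x hx), hx⟩)
  obtain ⟨x, rfl⟩ : ∃ x, z = x + 1 := ⟨z - 1, by
    have : z ≠ 0 := fun e => by
      have := z1.2
      rw [e, ht_zero] at this
      omega
    omega⟩
  have z4 := z1.2
  refine ⟨x, mem_range.1 z1.1, ?_, fun h => ?_, z4⟩
  · by_contra h
    have h1 := ht_down h
    have h2 := hg' x
    have := z3 x (by omega)
    omega
  · have h1 := ht_up h
    have h2 := hg (x + 1)
    have := z3 (x + 1 + 1) (by omega)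
    omega

/-- A lowest point below a walk is a valley. -/
lemma exists_valley {n y : ℕ} {F G : Finset ℕ} (hn : ∀ x, n ≤ x → ht G x ≤ ht F x)
    (hy : ht F y < ht G y) :
    ∃ x, x + 1 < n ∧ x ∉ F ∧ x + 1 ∈ F ∧ ht F (x + 1) < ht G (x + 1) := by
  have hlt : ∀ x, ht F x < ht G x → x < n := fun x hx => not_le.1 fun h => not_lt.2 (hn x h) hx
  obtain ⟨z, z1, z2⟩ := exists_min_image ((range n).filter fun x => ht F x < ht G x) (ht F)
    ⟨y, mem_filter.2 ⟨mem_range.2 (hlt y hy), hy⟩⟩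
  rw [mem_filter] at z1
  have z3 : ∀ x, ht F x < ht G x → ht F z ≤ ht F x := fun x hx =>
    z2 x (mem_filter.2 ⟨mem_range.2 (hlt x hx), hx⟩)
  obtain ⟨x, rfl⟩ : ∃ x, z = x + 1 := ⟨z - 1, by
    have : z ≠ 0 := fun e => by
      have := z1.2
      rw [e, ht_zero, ht_zero] at this
      omega
    omega⟩
  have z4 := z1.2
  refine ⟨x, mem_range.1 z1.1, fun h => ?_, ?_, z4⟩
  · have h1 := ht_up h
    have h2 := ht_step G x
    have := z3 x (by omega)
    omega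
  · by_contra h
    have h1 := ht_down h
    have h2 := ht_step G (x + 1)
    have := z3 (x + 1 + 1) (by omega)
    omega

theorem mono_pat {n k t : ℕ} {𝓕 : Finset (Finset ℕ)} (h : Good n k t 𝓕) (hc : Cl n t 𝓕)
    {F G : Finset ℕ} (hF : F ∈ 𝓕) (hG : G ∈ (range n).powersetCard k)
    (hV : ∀ i, V t 0 F i → V t 0 G i) : G ∈ 𝓕 := by
  classical
  obtain ⟨H, h1, h2⟩ := exists_min_image (𝓕.filter fun H => ∀ i, V t 0 H i → V t 0 G i)
    (fun H => ∑ x ∈ range n, |ht H x - ht G x|) ⟨F, mem_filter.2 ⟨hF, hV⟩⟩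
  rw [mem_filter] at h1
  have hend : ∀ x, n ≤ x → ht H x = ht G x := fun x hx => by
    rw [ht_end' (h.sub h1.1) hx, ht_end' hG hx]
  have key : ∀ H' ∈ 𝓕, (∀ i, V t 0 H' i → V t 0 G i) → ∀ x < n, (∀ y, y ≠ x → ht H' y = ht H y) →
      |ht H x - ht G x| ≤ |ht H' x - ht G x| := fun H' k1 k2 x k3 k4 => not_lt.1 fun k5 => by
    refine not_lt.2 (h2 H' (mem_filter.2 ⟨k1, k2⟩)) (sum_lt_sum (fun y _ => ?_)
      ⟨x, mem_range.2 k3, k5⟩)
    by_cases e : y = x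
    · rw [e]
      exact k5.le
    · rw [k4 y e]
  have hle : ∀ y, ht H y ≤ ht G y := fun y => not_lt.1 fun hy => by
    obtain ⟨x, x1, x2, x3, x4⟩ := exists_peak (n := n) (ht G)
      (fun x => by have := ht_step G x; omega) (fun x => by have := ht_step G x; omega)
      (ht_zero G).ge (fun x hx => (hend x hx).le) hy
    have x5 : ht H (x + 1) ≠ t := fun e => by
      obtain ⟨i, hi⟩ := V_of_eq e
      have := h1.2 i
      unfold V at this
      rw [← hi] at this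
      omega
    have x6 := key _ (hc H h1.1 x x1 x2 x3 x5) (fun i hi => h1.2 i (by
      unfold V at hi ⊢
      rw [ht_sw x2 x3] at hi
      split_ifs at hi <;> omega)) (x + 1) x1 fun y hy => by rw [ht_sw x2 x3, if_neg hy, sub_zero]
    rw [ht_sw x2 x3, if_pos rfl] at x6
    obtain ⟨c, e1⟩ := ht_par H (x + 1)
    obtain ⟨c', e2⟩ := ht_par G (x + 1)
    rw [abs_of_nonneg (by omega), abs_of_nonneg (by omega)] at x6
    omega
  have hge : ∀ y, ht G y ≤ ht H y := fun y => not_lt.1 fun hy => by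
    obtain ⟨x, x1, x2, x3, x4⟩ := exists_valley (n := n) (fun x hx => (hend x hx).ge) hy
    have x5 := ht_sw (x := x) (F := insert x (H.erase (x + 1))) (by simp) (by simp)
    rw [sw_us x3 x2] at x5
    obtain ⟨c, e1⟩ := ht_par H (x + 1)
    obtain ⟨c', e2⟩ := ht_par G (x + 1)
    have x7 := x5 (x + 1)
    rw [if_pos rfl] at x7
    have x6 := key _ (h.sh H h1.1 x (x + 1) (by omega) x3 x2) (fun i hi => by
      unfold V at hi ⊢
      have k1 := x5 (t + 2 * i)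
      have k2 := hle (t + 2 * i)
      split_ifs at k1 with e
      · rw [e] at hi ⊢
        omega
      · omega) (x + 1) x1 fun y hy => by rw [x5 y, if_neg hy, sub_zero]
    rw [abs_of_nonpos (by omega), abs_of_nonpos (by omega)] at x6
    omega
  have : G = H := by
    ext x
    have e1 := ht_succ G x
    have e2 := ht_succ H x
    have := hle x
    have := hge x
    have := hle (x + 1)
    have := hge (x + 1)
    split_ifs at e1 e2 with k1 k2 k2
    · simp [k1, k2]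
    · omega
    · omega
    · simp [k1, k2]
  exact this ▸ h1.1

lemma exists_low {n k t : ℕ} {𝓕 : Finset (Finset ℕ)} (h : Good n k t 𝓕) (hc : Cl n t 𝓕)
    (hn : 2 * k ≤ n + t) {F : Finset ℕ} (hF : F ∈ 𝓕) :
    ∃ H ∈ 𝓕, ∀ x, ht H x ≤ ht F x ∧ ht H x ≤ t := by
  classical
  obtain ⟨H, h1, h2⟩ := exists_min_image (𝓕.filter fun H => ∀ x, ht H x ≤ ht F x)
    (fun H => ∑ x ∈ range n, ht H x) ⟨F, mem_filter.2 ⟨hF, fun _ => le_rfl⟩⟩
  rw [mem_filter] at h1
  refine ⟨H, h1.1, fun y => ⟨h1.2 y, not_lt.1 fun hy => ?_⟩⟩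
  obtain ⟨x, x1, x2, x3, x4⟩ := exists_peak (n := n) (fun _ => (t : ℤ)) (fun x => by omega)
    (fun x => by omega) (by positivity)
    (fun x hx => by rw [ht_end' (h.sub h1.1) hx]; omega) hy
  have x5 : ∀ y, ht (sw x H) y ≤ ht H y := fun y => by
    rw [ht_sw x2 x3]
    split_ifs <;> omega
  refine not_lt.2 (h2 _ (mem_filter.2 ⟨hc H h1.1 x x1 x2 x3 x4.ne', fun y =>
    (x5 y).trans (h1.2 y)⟩)) (sum_lt_sum (fun y _ => x5 y) ⟨x + 1, mem_range.2 x1, ?_⟩)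
  rw [ht_sw x2 x3, if_pos rfl]
  omega

theorem int_pat {n k t : ℕ} {𝓕 : Finset (Finset ℕ)} (h : Good n k t 𝓕) (hc : Cl n t 𝓕)
    (hn : 2 * k ≤ n + t) {F G : Finset ℕ} (hF : F ∈ 𝓕) (hG : G ∈ 𝓕) :
    ∃ i, V t 0 F i ∧ V t 0 G i := by
  obtain ⟨F', f1, f2⟩ := exists_low h hc hn hF
  obtain ⟨G', g1, g2⟩ := exists_low h hc hn hG
  obtain ⟨x, hx⟩ := frankl_lemma h.sh h.int f1 G' g1
  have h1 : 2 * (t : ℤ) ≤ ht F' x + ht G' x := by
    unfold ht
    omega
  have f3 := f2 x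
  have g3 := g2 x
  obtain ⟨i, rfl⟩ := V_of_eq (show ht F' x = t by omega)
  refine ⟨i, ?_, ?_⟩ <;> unfold V <;> omega

lemma int_of_V {t i : ℕ} {F G : Finset ℕ} (hF : V t 0 F i) (hG : V t 0 G i) : t ≤ (F ∩ G).card := by
  have h1 := card_tr_add F G (t + 2 * i)
  have h2 := card_tr_le (F ∪ G) (t + 2 * i)
  have h3 := card_tr_le' (F ∩ G) (t + 2 * i)
  unfold V ht at hF hG
  push_cast at hF hG
  omega

lemma good_fam {n k t : ℕ} {X : (ℕ → Prop) → Prop} (hX : Ind t 0 X)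
    (hint : ∀ σ τ, X σ → X τ → ∃ i, σ i ∧ τ i) : Good n k t (fam t n k X 0) := by
  refine ⟨fun F hF => ?_, fun F hF G hG => ?_, shifted_of_adj fun F hF y y1 y2 => ?_⟩
  · rw [mem_fam] at hF
    exact mem_powersetCard.2 ⟨hF.1, by omega⟩
  · obtain ⟨i, h1, h2⟩ := hint _ _ (mem_fam.1 hF).2.2 (mem_fam.1 hG).2.2
    exact int_of_V h1 h2
  · rw [mem_fam] at hF ⊢
    have h1 := mem_range.1 (hF.1 y1)
    refine ⟨insert_subset (mem_range.2 (by omega)) ((erase_subset _ _).trans hF.1),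
      by rw [card_shift y2 y1]; exact hF.2.1, hX _ _ hF.2.2 fun i _ hi => ?_⟩
    have x5 := ht_sw (x := y) (F := insert y (F.erase (y + 1))) (by simp) (by simp) (t + 2 * i)
    rw [sw_us y1 y2] at x5
    unfold V at hi ⊢
    split_ifs at x5 <;> omega

lemma frankl_eq (n k t j : ℕ) : frankl n k t j = fam t n k (fun σ => σ j) 0 := by
  ext F
  rw [mem_fam, frankl, mem_filter, mem_powersetCard, and_assoc, zero_add]
  refine and_congr_right fun _ => and_congr_right fun _ => ?_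
  unfold V ht
  push_cast
  omega

lemma ind_j (t j : ℕ) : Ind t 0 fun σ => σ j := fun _ _ h1 h2 => h2 j (Nat.zero_le _) h1

/-- Every linear functional is maximised by a Frankl family or by the empty family. -/
theorem hull {n t d m : ℕ} {p q : ℤ} (ht1 : 1 ≤ t) (hn : t + 2 * d + 1 ≤ n) (hq : 0 ≤ q)
    {𝓕 : Finset (Finset ℕ)} (h : Adm n (t + d) t m 𝓕) :
    p * m - q * (shadow 𝓕).card ≤ 0 ∨ ∃ j ≤ d, q * (t + j) ≤ p * (j + 1) ∧
      p * m - q * (shadow 𝓕).card ≤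
        p * (frankl n (t + d) t j).card - q * (shadow (frankl n (t + d) t j)).card := by
  obtain ⟨𝓖, g1, g2, g3⟩ := exists_shifted h
  obtain ⟨𝓐, a1, a2, a3⟩ := exists_opt n (t + d) t p q hq
  have h1 := a2 𝓖 ⟨g1.1, g1.2.1, g2⟩
  rw [g1.2.2] at h1
  have h2 : p * m - q * (shadow 𝓕).card ≤ p * 𝓐.card - q * (shadow 𝓐).card :=
    le_trans (sub_le_sub_left (mul_le_mul_of_nonneg_left (Int.ofNat_le.2 g3) hq) _) h1
  rcases 𝓐.eq_empty_or_nonempty with rfl | ⟨A, hA⟩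
  · left
    simpa using h2
  right
  let S : (ℕ → Prop) → Prop := fun σ => ∃ F ∈ 𝓐, ∀ i, V t 0 F i → σ i
  have hS : Ind t 0 S := fun σ τ ⟨F, f1, f2⟩ f3 => ⟨F, f1, fun i hi => f3 i (Nat.zero_le _) (f2 i hi)⟩
  have hint : ∀ σ τ, S σ → S τ → ∃ i, σ i ∧ τ i := fun σ τ ⟨F, f1, f2⟩ ⟨G, f3, f4⟩ => by
    obtain ⟨i, i1, i2⟩ := int_pat a1 a3 (by omega) f1 f3
    exact ⟨i, f2 i i1, f4 i i2⟩
  have e : fam t n (t + d) S 0 = 𝓐 := by
    ext G
    rw [mem_fam]
    constructor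
    · rintro ⟨k1, k2, F, f1, f2⟩
      exact mono_pat a1 a3 f1 (mem_powersetCard.2 ⟨k1, by omega⟩) f2
    · intro hG
      have := mem_powersetCard.1 (a1.sub hG)
      exact ⟨this.1, by omega, G, hG, fun _ hi => hi⟩
  have hk : t + d ≤ n := by omega
  obtain ⟨j, j1, j2, j3⟩ := pat_le (p := p) ht1 hn hq hS hint (fun σ hσ => by rw [e]; exact hσ)
    ⟨_, A, hA, fun _ hi => hi⟩ fun X hX hXS => by
      have := a2 _ (good_fam (n := n) (k := t + d) hX fun σ τ k1 k2 => hint _ _ (hXS _ k1) (hXS _ k2))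
      rwa [← e, shadow_fam hX hk, shadow_fam hS hk] at this
  refine ⟨j, j1, j2, h2.trans ?_⟩
  rw [← e, frankl_eq, shadow_fam hS hk, shadow_fam (ind_j t j) hk]
  exact j3

end Pool.Agent.P.MP_ed1e41_co.Hull
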