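import Pool.Agent.P.MP_ed1e41_co.H.Count

/-! The comparison of a pattern family with a Frankl family. -/

namespace Pool.Agent.P.MP_ed1e41_co.Hull

open Finset

lemma cnt_mono {t M n k s : ℕ} {X Y : (ℕ → Prop) → Prop}
    (h : ∀ T ∈ Tl M n k s, X (V t s T) → Y (V t s T)) : cnt t M n k X s ≤ cnt t M n k Y s := by
  classical
  refine card_le_card fun T hT => ?_
  rw [mem_filter] at hT ⊢
  exact ⟨hT.1, h T hT.1 hT.2⟩

lemma V_le {t d i : ℕ} {F : Finset ℕ} (hF : F.card = t + d) (h : V t 0 F i) : i ≤ d := by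
  unfold V ht at h
  have := card_le_card (inter_subset_left (s₁ := F) (s₂ := range (t + 2 * i)))
  push_cast at h
  omega

/-- The ratio of shadow and size for the part of a family that needs the sign `a`. -/
lemma ratio_le {t a n k : ℕ} {X Y : (ℕ → Prop) → Prop} (hX : Ind t (t + 2 * a) X)
    (hY : Ind t (t + 2 * a) Y) (hM : t + 2 * a ≤ n) (h1 : ∀ σ, Y σ → X σ)
    (h2 : ∀ σ, ¬ σ a → X σ → Y σ) :
    ((t : ℤ) + a) * (cnt t 0 n k X 0 - cnt t 0 n k Y 0) ≤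
      (a + 1) * (cnt t 0 n k X 1 - cnt t 0 n k Y 1) := by
  have e1 := cnt_comb (k := k) hX hM
  have e2 := cnt_comb (k := k) hY hM
  have : ∑ s ∈ range (t + 2 * a + 2), ((t : ℤ) + a - s) * (t + 2 * a + 1).choose s *
      cnt t (t + 2 * a) n k X s ≤ ∑ s ∈ range (t + 2 * a + 2), ((t : ℤ) + a - s) *
      (t + 2 * a + 1).choose s * cnt t (t + 2 * a) n k Y s := by
    refine sum_le_sum fun s _ => ?_
    by_cases hs : s < t + a
    · refine mul_le_mul_of_nonneg_left ?_ (mul_nonneg (by omega) (by positivity))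
      refine Int.ofNat_le.2 (cnt_mono fun T hT => h2 _ ?_)
      unfold V
      rw [ht_start (mem_Tl.1 hT).1]
      push_cast
      omega
    · refine mul_le_mul_of_nonpos_left (Int.ofNat_le.2 (cnt_mono fun T _ => h1 _)) ?_
      exact mul_nonpos_of_nonpos_of_nonneg (by omega) (by positivity)
  linarith

theorem pat_le {t d n : ℕ} {p q : ℤ} {S : (ℕ → Prop) → Prop} (ht1 : 1 ≤ t) (hn : t + 2 * d + 1 ≤ n)
    (hq : 0 ≤ q) (hS : Ind t 0 S) (hint : ∀ σ τ, S σ → S τ → ∃ i, σ i ∧ τ i)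
    (hreal : ∀ σ, S σ → ∃ F ∈ fam t n (t + d) S 0, ∀ i, V t 0 F i → σ i) (hne : ∃ σ, S σ)
    (hopt : ∀ X, Ind t 0 X → (∀ σ, X σ → S σ) →
      p * cnt t 0 n (t + d) X 0 - q * cnt t 0 n (t + d) X 1 ≤
        p * cnt t 0 n (t + d) S 0 - q * cnt t 0 n (t + d) S 1) :
    ∃ j ≤ d, q * (t + j) ≤ p * (j + 1) ∧
      p * cnt t 0 n (t + d) S 0 - q * cnt t 0 n (t + d) S 1 ≤
        p * cnt t 0 n (t + d) (fun σ => σ j) 0 - q * cnt t 0 n (t + d) (fun σ => σ j) 1 := by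
  classical
  have hd : S fun i => i ≤ d := by
    obtain ⟨σ, hσ⟩ := hne
    obtain ⟨F, hF, -⟩ := hreal σ hσ
    rw [mem_fam] at hF
    exact hS _ _ hF.2.2 fun i _ hi => V_le (by omega) hi
  have hemp : ¬ S fun _ => False := fun h => by
    obtain ⟨_, h1, -⟩ := hint _ _ h h
    exact h1
  have hex : ∃ j, S fun i => i ≤ j := ⟨d, hd⟩
  obtain ⟨j, hj, hjd, hhi⟩ : ∃ j, (S fun i => i ≤ j) ∧ j ≤ d ∧ ∀ σ, S σ → ∃ i, j ≤ i ∧ σ i := by
    refine ⟨Nat.find hex, Nat.find_spec hex, Nat.find_min' hex hd, fun σ hσ => ?_⟩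
    by_contra hc
    push Not at hc
    obtain ⟨i₀, h0, -⟩ := hint _ _ hσ hσ
    have h1 : i₀ < Nat.find hex := not_le.1 fun h => hc _ h h0
    refine Nat.find_min hex (m := Nat.find hex - 1) (by omega) (hS _ _ hσ fun i _ hi => ?_)
    have : i < Nat.find hex := not_le.1 fun h => hc _ h hi
    omega
  obtain ⟨a, haj, ha, ha'⟩ : ∃ a ≤ j, Ind t (t + 2 * a) S ∧ ¬ Ind t (t + 2 * (a + 1)) S := by
    have h0 : Ind t (t + 2 * 0) S := fun σ τ h1 h2 => hS σ τ h1 fun i _ => h2 i (by omega)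
    refine ⟨Nat.findGreatest (fun a => Ind t (t + 2 * a) S) j, Nat.findGreatest_le j,
      Nat.findGreatest_spec (P := fun a => Ind t (t + 2 * a) S) (Nat.zero_le j) h0, fun h => ?_⟩
    rcases (Nat.findGreatest_le (P := fun a => Ind t (t + 2 * a) S) j).eq_or_lt with e | e
    · rw [e] at h
      exact hemp (h _ _ hj fun i h1 h2 => by omega)
    · exact Nat.findGreatest_is_greatest (Nat.lt_succ_self _) e h
  have hint' : ∀ σ τ, S σ → S τ → ∃ i, t + 2 * a ≤ t + 2 * i ∧ σ i ∧ τ i := fun σ τ h1 h2 => by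
    obtain ⟨i, i1, i2⟩ := hint _ _ (ha σ (fun i => t + 2 * a ≤ t + 2 * i ∧ σ i) h1
      fun i h3 h4 => ⟨h3, h4⟩) h2
    exact ⟨i, i1.1, i1.2, i2⟩
  have hlo : ∀ σ, S σ → ∃ i ≤ j, t + 2 * a ≤ t + 2 * i ∧ σ i := fun σ h1 => by
    obtain ⟨i, i1, i2, i3⟩ := hint' _ _ h1 hj
    exact ⟨i, i3, i1, i2⟩
  have hA : Ind t (t + 2 * a) fun σ => σ j := fun σ τ h1 h2 => h2 j (by omega) h1
  have hM : t + 2 * a ≤ n := by omega
  -- the slope is large
  have hlam : q * (t + a) ≤ p * (a + 1) := by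
    let S' : (ℕ → Prop) → Prop := fun σ => S fun i => σ i ∧ i ≠ a
    have h1 : Ind t (t + 2 * a) S' := fun σ τ h2 h3 =>
      ha _ _ h2 fun i i1 i2 => ⟨h3 i i1 i2.1, i2.2⟩
    have h2 : ∀ σ, S' σ → S σ := fun σ h3 => hS _ _ h3 fun i _ hi => hi.1
    have h3 := ratio_le (k := t + d) ha h1 hM h2 fun σ h4 h5 =>
      hS _ _ h5 fun i _ hi => ⟨hi, fun e => h4 (e ▸ hi)⟩
    have h4 := hopt S' h1.zero h2
    have h5 : cnt t 0 n (t + d) S' 0 < cnt t 0 n (t + d) S 0 := by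
      unfold Ind at ha'
      push Not at ha'
      obtain ⟨σ, τ, k1, k2, k3⟩ := ha'
      obtain ⟨F, k4, k5⟩ := hreal σ k1
      rw [← card_fam, ← card_fam]
      refine card_lt_card ((ssubset_iff_of_subset fun G hG => ?_).2 ⟨F, k4, fun hF => k3 ?_⟩)
      · rw [mem_fam] at hG ⊢
        exact ⟨hG.1, hG.2.1, h2 _ hG.2.2⟩
      · refine ha _ _ (mem_fam.1 hF).2.2 fun i i1 i2 => k2 i ?_ (k5 i i2.1)
        have := i2.2
        omega
    have h6 : (0 : ℤ) < cnt t 0 n (t + d) S 0 - cnt t 0 n (t + d) S' 0 := by omega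
    refine le_of_mul_le_mul_right ?_ h6
    nlinarith [mul_le_mul_of_nonneg_left h3 hq,
      mul_le_mul_of_nonneg_left h4 (show (0 : ℤ) ≤ a + 1 by positivity)]
  have hp : 0 ≤ p - q := by
    have h1 : (1 : ℤ) ≤ t := by exact_mod_cast ht1
    refine nonneg_of_mul_nonneg_left (b := (a : ℤ) + 1) ?_ (by positivity)
    nlinarith
  refine ⟨j, hjd, ?_, ?_⟩
  · have h1 : (0 : ℤ) ≤ j - a := by omega
    nlinarith [mul_nonneg hp h1]
  have h0 : (cnt t 0 n (t + d) S 0 : ℤ) ≤ cnt t 0 n (t + d) (fun σ => σ j) 0 :=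
    Int.ofNat_le.2 (cnt_le (fun σ τ h1 h2 => by
      obtain ⟨i, -, h3⟩ := hint' σ τ h1 h2
      exact ⟨i, Nat.zero_le _, h3⟩) (fun σ h1 => by
      obtain ⟨i, h2, -, h3⟩ := hlo σ h1
      exact ⟨i, h2, Nat.zero_le _, h3⟩) hhi (by omega) (by omega))
  have h1 := sum_pair (a := a) ht1 (fun s => (cnt t (t + 2 * a) n (t + d) (fun σ => σ j) s : ℤ) -
    cnt t (t + 2 * a) n (t + d) S s)
    (fun s hs => sub_nonneg.2 (Int.ofNat_le.2 (cnt_le hint' hlo hhi (by omega) (by omega))))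
    fun u v hv => by
      have := cnt_pair (k := t + d) hv rfl ha hj hlo hM (by omega)
      omega
  simp only [mul_sub, sum_sub_distrib] at h1
  rw [← cnt_comb hA hM, ← cnt_comb ha hM] at h1
  refine le_of_mul_le_mul_left ?_ (show (0 : ℤ) < a + 1 by positivity)
  nlinarith [mul_nonneg hq h1, mul_nonneg (sub_nonneg.2 hlam) (sub_nonneg.2 h0)]

end Pool.Agent.P.MP_ed1e41_co.Hull
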