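import Pool.Agent.P.MP_ed1e41_co.H.Walk

/-! Reflection of the initial part of a walk in the level `t`. -/

namespace Pool.Agent.P.MP_ed1e41_co.Hull

open Finset

/-- `p` is the first visit of the level `c` from below. -/
structure Hit (M n : ℕ) (c : ℤ) (T : Finset ℕ) (p : ℕ) : Prop where
  lo : M ≤ p
  hi : p ≤ n
  hp : ht T p = c
  bef : ∀ x, M ≤ x → x < p → ht T x < c

lemma Hit.uniq {M n : ℕ} {c : ℤ} {T : Finset ℕ} {p p' : ℕ} (h : Hit M n c T p)
    (h' : Hit M n c T p') : p = p' := by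
  rcases lt_trichotomy p p' with e | e | e
  · exact absurd (h'.bef p h.lo e) (by rw [h.hp]; exact lt_irrefl _)
  · exact e
  · exact absurd (h.bef p' h'.lo e) (by rw [h'.hp]; exact lt_irrefl _)

lemma Hit.uniq' {M n : ℕ} {c : ℤ} {T T' : Finset ℕ} {p p' : ℕ} (h : Hit M n c T p)
    (h' : Hit M n c T' p') (h0 : ht T M = ht T' M) (e : rf M p T = rf M p' T') : T = T' := by
  have key : ∀ {T T' : Finset ℕ} {p p' : ℕ}, Hit M n c T p → Hit M n c T' p' →
      ht T M = ht T' M → rf M p T = rf M p' T' → ¬ p < p' := by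
    intro T T' p p' h h' h0 e hlt
    have h1 := ht_rf_mid (q := p) T h.lo le_rfl
    have h2 := ht_rf_mid (q := p') T' h.lo hlt.le
    have h3 := h'.bef p h.lo hlt
    have h4 := h.hp
    rw [e] at h1
    omega
  obtain rfl : p = p' := le_antisymm (not_lt.1 (key h' h h0.symm e.symm)) (not_lt.1 (key h h' h0 e))
  rw [← rf_rf M p T, e, rf_rf]

section

variable {t a n k u v w p : ℕ} {T : Finset ℕ}

lemma Hit.mid (hv : v + u = t + a) (hw : w = t + a + u) (hT : T ⊆ Ico (t + 2 * a) n)
    {x : ℕ} (h1 : t + 2 * a ≤ x) (h2 : x ≤ p) :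
    2 * (w : ℤ) + ht (rf (t + 2 * a) p T) x = 2 * t - (2 * v + ht T x) := by
  rw [ht_rf_mid T h1 h2, ht_start hT]
  push_cast
  omega

lemma Hit.top (hv : v + u = t + a) (hw : w = t + a + u) (hT : T ⊆ Ico (t + 2 * a) n)
    (h : Hit (t + 2 * a) n ((t : ℤ) - 2 * v) T p) {x : ℕ} (h2 : p ≤ x) :
    2 * (w : ℤ) + ht (rf (t + 2 * a) p T) x = 2 * v + ht T x := by
  rw [ht_rf_hi T h.lo h2, ht_start hT, h.hp]
  push_cast
  omega

lemma Hit.imp (hv : v + u = t + a) (hw : w = t + a + u) (hT : T ⊆ Ico (t + 2 * a) n)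
    (h : Hit (t + 2 * a) n ((t : ℤ) - 2 * v) T p) (i : ℕ) (hi : t + 2 * a ≤ t + 2 * i)
    (h1 : V t v T i) : V t w (rf (t + 2 * a) p T) i := by
  unfold V at h1 ⊢
  by_cases e : t + 2 * i < p
  · have := h.bef _ hi e
    omega
  · rw [h.top hv hw hT (not_lt.1 e)]
    exact h1

end

theorem cnt_pair {t a n k u v w j : ℕ} {X : (ℕ → Prop) → Prop} (hv : v + u = t + a)
    (hw : w = t + a + u)
    (hmono : ∀ σ τ, X σ → (∀ i, t + 2 * a ≤ t + 2 * i → σ i → τ i) → X τ)
    (hj : X fun i => i ≤ j) (hlo : ∀ σ, X σ → ∃ i ≤ j, t + 2 * a ≤ t + 2 * i ∧ σ i)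
    (han : t + 2 * a ≤ n) (hn : 2 * k + 1 ≤ n + t) :
    cnt t (t + 2 * a) n k (fun σ => σ j) w + cnt t (t + 2 * a) n k X v ≤
      cnt t (t + 2 * a) n k X w + cnt t (t + 2 * a) n k (fun σ => σ j) v := by
  classical
  set M := t + 2 * a with hM
  have k1 : (((Tl M n k w).filter fun T => V t w T j).filter fun T => ¬ X (V t w T)).card ≤
      (((Tl M n k v).filter fun T => V t v T j).filter fun T => ¬ X (V t v T)).card := by
    refine card_le_card_of_forall_subsingleton
      (fun T' T => ∃ p, Hit M n ((t : ℤ) - 2 * v) T p ∧ T' = rf M p T) ?_ ?_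
    · intro T' hT
      simp only [mem_filter] at hT
      obtain ⟨⟨hT, hA⟩, hX⟩ := hT
      have hsub := (mem_Tl.1 hT).1
      have h0 := ht_start hsub
      have h1 := Tl_end hT le_rfl
      obtain ⟨p, p1, p2, p3, p4⟩ := first_up (fun x => - ht T' x)
        (fun x => by have := ht_step T' x; omega) (M := M) (y := n) (c := 2 * (w : ℤ) - t)
        (by omega) han (by omega)
      have hsub' : rf M p T' ⊆ Ico M n := rf_sub hsub le_rfl p2
      have hH : Hit M n ((t : ℤ) - 2 * v) (rf M p T') p := by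
        refine ⟨p1, p2, ?_, fun x x1 x2 => ?_⟩
        · rw [ht_rf_mid T' p1 le_rfl]
          omega
        · rw [ht_rf_mid T' x1 x2.le]
          have := p4 x x1 x2
          omega
      have hpj : p ≤ t + 2 * j := by
        refine not_lt.1 fun hlt => hX (hmono _ _ hj fun i i1 i2 => ?_)
        have := p4 (t + 2 * i) i1 (by omega)
        unfold V
        omega
      refine ⟨rf M p T', ?_, p, hH, (rf_rf M p T').symm⟩
      have htop := fun x (hx : p ≤ x) => hH.top hv hw hsub' hx
      simp only [← hM, rf_rf] at htop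
      simp only [mem_filter]
      refine ⟨⟨mem_Tl'.2 ⟨hsub', by rw [← htop n p2, h1]⟩, ?_⟩, fun hX' => hX ?_⟩
      · unfold V at hA ⊢
        rw [← htop _ hpj]
        exact hA
      · refine hmono _ _ hX' fun i i1 i2 => ?_
        have := hH.imp hv hw hsub' i i1 i2
        rwa [← hM, rf_rf] at this
    · rintro T - T₁ ⟨-, p, h1, rfl⟩ T₂ ⟨-, p', h2, rfl⟩
      rw [h1.uniq h2]
  have k2 : (((Tl M n k v).filter fun T => X (V t v T)).filter fun T => ¬ V t v T j).card ≤
      (((Tl M n k w).filter fun T => X (V t w T)).filter fun T => ¬ V t w T j).card := by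
    refine card_le_card_of_forall_subsingleton
      (fun T T' => ∃ p, Hit M n ((t : ℤ) - 2 * v) T p ∧ T' = rf M p T) ?_ ?_
    · intro T hT
      simp only [mem_filter] at hT
      obtain ⟨⟨hT, hX⟩, hA⟩ := hT
      have hsub := (mem_Tl.1 hT).1
      have h0 := ht_start hsub
      obtain ⟨i, i1, i2, i3⟩ := hlo _ hX
      unfold V at i3
      obtain ⟨p, p1, p2, p3, p4⟩ := first_up (ht T)
        (fun x => by have := ht_step T x; omega) (M := M) (y := t + 2 * i) (c := (t : ℤ) - 2 * v)
        (by omega) i2 (by omega)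
      have hpn : p ≤ n := by
        refine not_lt.1 fun hlt => ?_
        have := Tl_end hT hlt.le
        omega
      have hH : Hit M n ((t : ℤ) - 2 * v) T p := ⟨p1, hpn, p3, p4⟩
      refine ⟨rf M p T, ?_, p, hH, rfl⟩
      simp only [mem_filter]
      refine ⟨⟨mem_Tl'.2 ⟨rf_sub hsub le_rfl hpn, ?_⟩,
        hmono _ _ hX fun i i1 i2 => hH.imp hv hw hsub i i1 i2⟩, fun hA' => hA ?_⟩
      · rw [hH.top hv hw hsub hpn, Tl_end hT le_rfl]
      · unfold V at hA' ⊢
        rwa [hH.top hv hw hsub (by omega)] at hA'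
    · rintro T - T₁ ⟨m1, p, h1, e1⟩ T₂ ⟨m2, p', h2, e2⟩
      simp only [mem_filter] at m1 m2
      exact h1.uniq' h2 (by rw [ht_start (mem_Tl.1 m1.1.1).1, ht_start (mem_Tl.1 m2.1.1).1])
        (e1.symm.trans e2)
  have e1 := card_filter_add_card_filter_not (s := (Tl M n k v).filter fun T => X (V t v T))
    fun T => V t v T j
  have e2 := card_filter_add_card_filter_not (s := (Tl M n k v).filter fun T => V t v T j)
    fun T => X (V t v T)
  have e3 := card_filter_add_card_filter_not (s := (Tl M n k w).filter fun T => X (V t w T))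
    fun T => V t w T j
  have e4 := card_filter_add_card_filter_not (s := (Tl M n k w).filter fun T => V t w T j)
    fun T => X (V t w T)
  rw [filter_comm] at e2 e4
  have e5 : ∀ s, cnt t M n k (fun σ => σ j) s = ((Tl M n k s).filter fun T => V t s T j).card := by
    intro s
    unfold cnt
    congr
  rw [e5, e5]
  unfold cnt
  omega

end Pool.Agent.P.MP_ed1e41_co.Hull
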