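import Pool.Agent.P.MP_ed1e41_co.Shift

/-! Walks of finite sets and their reflections. -/

namespace Pool.Agent.P.MP_ed1e41_co.Hull

open Finset

/-- The height of the walk of `F` at the time `x`. -/
def ht (F : Finset ℕ) (x : ℕ) : ℤ := 2 * ((F ∩ range x).card : ℤ) - x

lemma ht_zero (F : Finset ℕ) : ht F 0 = 0 := by simp [ht]

lemma ht_succ (F : Finset ℕ) (x : ℕ) : ht F (x + 1) = ht F x + if x ∈ F then 1 else -1 := by
  unfold ht
  rw [range_add_one]
  split_ifs with h
  · rw [inter_insert_of_mem h, card_insert_of_notMem (by simp)]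
    push_cast
    ring
  · rw [inter_insert_of_notMem h]
    push_cast
    ring

lemma ht_up {F : Finset ℕ} {x : ℕ} (h : x ∈ F) : ht F (x + 1) = ht F x + 1 := by
  rw [ht_succ, if_pos h]

lemma ht_down {F : Finset ℕ} {x : ℕ} (h : x ∉ F) : ht F (x + 1) = ht F x - 1 := by
  rw [ht_succ, if_neg h]
  ring

lemma ht_step (F : Finset ℕ) (x : ℕ) : ht F (x + 1) = ht F x + 1 ∨ ht F (x + 1) = ht F x - 1 := by
  by_cases h : x ∈ F
  · exact Or.inl (ht_up h)
  · exact Or.inr (ht_down h)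

lemma ht_end {F : Finset ℕ} {n x : ℕ} (h : F ⊆ range n) (hx : n ≤ x) :
    ht F x = 2 * (F.card : ℤ) - x := by
  rw [ht, inter_eq_left.2 (h.trans (range_subset_range.2 hx))]

lemma ht_start {T : Finset ℕ} {M n : ℕ} (h : T ⊆ Ico M n) : ht T M = -M := by
  have : T ∩ range M = ∅ := by
    ext x
    simp only [mem_inter, mem_range, notMem_empty, iff_false, not_and, not_lt]
    exact fun hx => (mem_Ico.1 (h hx)).1
  simp [ht, this]

lemma ht_par (F : Finset ℕ) (x : ℕ) : ∃ c : ℤ, ht F x = 2 * c - x := ⟨_, rfl⟩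

/-- Reflection of the steps in `[p, q)`. -/
def rf (p q : ℕ) (F : Finset ℕ) : Finset ℕ := symmDiff F (Ico p q)

lemma mem_rf {p q x : ℕ} {F : Finset ℕ} :
    x ∈ rf p q F ↔ (x ∈ F ∧ ¬ (p ≤ x ∧ x < q)) ∨ ((p ≤ x ∧ x < q) ∧ x ∉ F) := by
  simp only [rf, mem_symmDiff, mem_Ico]

lemma rf_rf (p q : ℕ) (F : Finset ℕ) : rf p q (rf p q F) = F := symmDiff_symmDiff_cancel_right _ _

lemma rf_sub {p q M n : ℕ} {F : Finset ℕ} (h : F ⊆ Ico M n) (hp : M ≤ p) (hq : q ≤ n) :
    rf p q F ⊆ Ico M n := fun x hx => by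
  rcases mem_rf.1 hx with h1 | h1
  · exact h h1.1
  · exact mem_Ico.2 (by omega)

lemma ht_rf_lo {p q x : ℕ} (F : Finset ℕ) (hx : x ≤ p) : ht (rf p q F) x = ht F x := by
  induction x with
  | zero => rw [ht_zero, ht_zero]
  | succ x ih =>
    rw [ht_succ, ht_succ, ih (by omega)]
    have : x ∈ rf p q F ↔ x ∈ F := by
      rw [mem_rf]
      have : ¬ (p ≤ x ∧ x < q) := by omega
      tauto
    simp only [this]

lemma ht_rf_mid {p q x : ℕ} (F : Finset ℕ) (hp : p ≤ x) (hq : x ≤ q) :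
    ht (rf p q F) x = 2 * ht F p - ht F x := by
  induction x, hp using Nat.le_induction with
  | base => rw [ht_rf_lo F le_rfl]; ring
  | succ x hx ih =>
    rw [ht_succ, ht_succ, ih (by omega)]
    have : x ∈ rf p q F ↔ x ∉ F := by
      rw [mem_rf]
      have : p ≤ x ∧ x < q := by omega
      tauto
    simp only [this]
    split_ifs <;> ring

lemma ht_rf_hi {p q x : ℕ} (F : Finset ℕ) (hp : p ≤ q) (hq : q ≤ x) :
    ht (rf p q F) x = ht F x + 2 * ht F p - 2 * ht F q := by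
  induction x, hq using Nat.le_induction with
  | base => rw [ht_rf_mid F hp le_rfl]; ring
  | succ x hx ih =>
    rw [ht_succ, ht_succ, ih]
    have : x ∈ rf p q F ↔ x ∈ F := by
      rw [mem_rf]
      have : ¬ (p ≤ x ∧ x < q) := by omega
      tauto
    simp only [this]
    ring

/-- Tails: subsets of `[M, n)` that complete `s` elements to `k` elements. -/
def Tl (M n k s : ℕ) : Finset (Finset ℕ) := (Ico M n).powerset.filter fun T => s + T.card = k

lemma mem_Tl {M n k s : ℕ} {T : Finset ℕ} : T ∈ Tl M n k s ↔ T ⊆ Ico M n ∧ s + T.card = k := by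
  simp [Tl]

lemma Ico_sub (M n : ℕ) : Ico M n ⊆ range n := fun _ hx => mem_range.2 (mem_Ico.1 hx).2

lemma mem_Tl' {M n k s : ℕ} {T : Finset ℕ} :
    T ∈ Tl M n k s ↔ T ⊆ Ico M n ∧ 2 * (s : ℤ) + ht T n = 2 * k - n := by
  rw [mem_Tl]
  refine and_congr_right fun h => ?_
  rw [ht_end (h.trans (Ico_sub M n)) le_rfl]
  omega

lemma Tl_end {M n k s x : ℕ} {T : Finset ℕ} (h : T ∈ Tl M n k s) (hx : n ≤ x) :
    2 * (s : ℤ) + ht T x = 2 * k - x := by
  rw [mem_Tl] at h
  rw [ht_end (h.1.trans (Ico_sub M n)) hx]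
  omega

/-- The sign pattern of the walk that is lifted by `2 s`. -/
def V (t s : ℕ) (T : Finset ℕ) (i : ℕ) : Prop := (t : ℤ) ≤ 2 * s + ht T (t + 2 * i)

open Classical in
/-- The number of tails whose pattern has the property `X`. -/
noncomputable def cnt (t M n k : ℕ) (X : (ℕ → Prop) → Prop) (s : ℕ) : ℕ :=
  ((Tl M n k s).filter fun T => X (V t s T)).card

/-- The first time at which a walk with steps `±1` reaches a level from below. -/
lemma first_up (f : ℕ → ℤ) (hf : ∀ x, f (x + 1) ≤ f x + 1) {M y : ℕ} {c : ℤ} (h0 : f M ≤ c)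
    (hy : M ≤ y) (h1 : c ≤ f y) :
    ∃ p, M ≤ p ∧ p ≤ y ∧ f p = c ∧ ∀ x, M ≤ x → x < p → f x < c := by
  classical
  have hex : ∃ p, M ≤ p ∧ c ≤ f p := ⟨y, hy, h1⟩
  have h2 := Nat.find_spec hex
  have h3 : ∀ x, M ≤ x → x < Nat.find hex → f x < c := fun x hx hx' =>
    not_le.1 fun h => Nat.find_min hex hx' ⟨hx, h⟩
  refine ⟨Nat.find hex, h2.1, Nat.find_min' hex ⟨hy, h1⟩, le_antisymm ?_ h2.2, h3⟩
  rcases h2.1.eq_or_lt with e | e
  · rw [← e]
    exact h0
  · obtain ⟨z, hz⟩ : ∃ z, Nat.find hex = z + 1 := ⟨Nat.find hex - 1, by omega⟩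
    have := h3 z (by omega) (by omega)
    have := hf z
    rw [hz]
    omega

/-- The last time at which a walk is at a level. -/
lemma last_up (f : ℕ → ℤ) (hf : ∀ x, f x - 1 ≤ f (x + 1)) {n y : ℕ} {c : ℤ}
    (h0 : ∀ x, n < x → f x < c) (h0' : f n ≤ c) (h1 : c ≤ f y) :
    ∃ q, y ≤ q ∧ q ≤ n ∧ f q = c ∧ ∀ x, q < x → f x < c := by
  classical
  have hy : y ≤ n := not_lt.1 fun h => absurd (h0 y h) (not_lt.2 h1)
  have h2 : c ≤ f (Nat.findGreatest (fun x => c ≤ f x) n) :=
    Nat.findGreatest_spec (P := fun x => c ≤ f x) hy h1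
  have h3 : ∀ x, Nat.findGreatest (fun x => c ≤ f x) n < x → f x < c := fun x hx => by
    by_cases hn : x ≤ n
    · exact not_le.1 (Nat.findGreatest_is_greatest hx hn)
    · exact h0 x (by omega)
  refine ⟨_, Nat.le_findGreatest hy h1, Nat.findGreatest_le n, le_antisymm ?_ h2, h3⟩
  rcases (Nat.findGreatest_le (P := fun x => c ≤ f x) n).eq_or_lt with e | e
  · rw [e]
    exact h0'
  · have := h3 (Nat.findGreatest (fun x => c ≤ f x) n + 1) (by omega)
    have := hf (Nat.findGreatest (fun x => c ≤ f x) n)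
    omega

/-- First and last visit of the level `c`. -/
structure Span (M n : ℕ) (c : ℤ) (T : Finset ℕ) (p q : ℕ) : Prop where
  lo : M ≤ p
  le : p ≤ q
  hi : q ≤ n
  hp : ht T p = c
  hq : ht T q = c
  bef : ∀ x, M ≤ x → x < p → ht T x < c
  aft : ∀ x, q < x → ht T x < c

lemma Span.rf {M n : ℕ} {c : ℤ} {T : Finset ℕ} {p q : ℕ} (h : Span M n c T p q) :
    Span M n c (rf p q T) p q := by
  refine ⟨h.lo, h.le, h.hi, by rw [ht_rf_lo T le_rfl, h.hp], ?_, fun x h1 h2 => ?_, fun x h1 => ?_⟩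
  · rw [ht_rf_mid T h.le le_rfl, h.hp, h.hq]
    ring
  · rw [ht_rf_lo T h2.le]
    exact h.bef x h1 h2
  · rw [ht_rf_hi T h.le h1.le, h.hp, h.hq]
    have := h.aft x h1
    omega

lemma Span.uniq {M n : ℕ} {c : ℤ} {T : Finset ℕ} {p q p' q' : ℕ} (h : Span M n c T p q)
    (h' : Span M n c T p' q') : p = p' ∧ q = q' := by
  constructor
  · rcases lt_trichotomy p p' with e | e | e
    · exact absurd (h'.bef p h.lo e) (by rw [h.hp]; exact lt_irrefl _)
    · exact e
    · exact absurd (h.bef p' h'.lo e) (by rw [h'.hp]; exact lt_irrefl _)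
  · rcases lt_trichotomy q q' with e | e | e
    · exact absurd (h.aft q' e) (by rw [h'.hq]; exact lt_irrefl _)
    · exact e
    · exact absurd (h'.aft q e) (by rw [h.hq]; exact lt_irrefl _)

/-- Reflection between the first and the last visit of the level `t - 1`. -/
theorem cnt_le {t M n k s j : ℕ} {X : (ℕ → Prop) → Prop}
    (hint : ∀ σ τ, X σ → X τ → ∃ i, M ≤ t + 2 * i ∧ σ i ∧ τ i)
    (hlo : ∀ σ, X σ → ∃ i ≤ j, M ≤ t + 2 * i ∧ σ i) (hhi : ∀ σ, X σ → ∃ i, j ≤ i ∧ σ i)
    (hs : 2 * s + 1 ≤ M + t) (hn : 2 * k + 1 ≤ n + t) :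
    cnt t M n k X s ≤ cnt t M n k (fun σ => σ j) s := by
  classical
  have key : (((Tl M n k s).filter fun T => X (V t s T)).filter fun T => ¬ V t s T j).card ≤
      (((Tl M n k s).filter fun T => V t s T j).filter fun T => ¬ X (V t s T)).card := by
    refine card_le_card_of_forall_subsingleton
      (fun T T' => ∃ p q, Span M n ((t : ℤ) - 1 - 2 * s) T' p q ∧ T = rf p q T') ?_ ?_
    · intro T hT
      simp only [mem_filter] at hT
      obtain ⟨⟨hT, hX⟩, hj⟩ := hT
      obtain ⟨a, a1, a2, a3⟩ := hlo _ hX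
      obtain ⟨b, b1, b3⟩ := hhi _ hX
      unfold V at a3 b3 hj
      have h0 := ht_start (mem_Tl.1 hT).1
      obtain ⟨p, p1, p2, p3, p4⟩ := first_up (ht T) (fun x => by have := ht_step T x; omega)
        (M := M) (c := (t : ℤ) - 1 - 2 * s) (by omega) a2 (by omega)
      obtain ⟨q, q1, q2, q3, q4⟩ := last_up (ht T) (fun x => by have := ht_step T x; omega)
        (n := n) (y := t + 2 * b) (c := (t : ℤ) - 1 - 2 * s)
        (fun x hx => by have := Tl_end hT hx.le; omega)
        (by have := Tl_end hT le_rfl; omega) (by omega)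
      have hS : Span M n ((t : ℤ) - 1 - 2 * s) T p q := ⟨p1, by omega, q2, p3, q3, p4, q4⟩
      refine ⟨rf p q T, ?_, p, q, hS.rf, (rf_rf p q T).symm⟩
      simp only [mem_filter]
      refine ⟨⟨mem_Tl'.2 ⟨rf_sub (mem_Tl.1 hT).1 p1 q2, ?_⟩, ?_⟩, fun hX' => ?_⟩
      · rw [ht_rf_hi T hS.le q2, p3, q3]
        have := Tl_end hT le_rfl
        omega
      · unfold V
        rw [ht_rf_mid T (by omega) (by omega), p3]
        obtain ⟨c, hc⟩ := ht_par T (t + 2 * j)
        push_cast at hc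
        omega
      · obtain ⟨i, i1, i2, i3⟩ := hint _ _ hX hX'
        unfold V at i2 i3
        by_cases e1 : t + 2 * i < p
        · have := p4 _ i1 e1
          omega
        · by_cases e2 : q < t + 2 * i
          · have := q4 _ e2
            omega
          · rw [ht_rf_mid T (by omega) (by omega), p3] at i3
            omega
    · rintro T' - T₁ ⟨-, p, q, h1, rfl⟩ T₂ ⟨-, p', q', h2, rfl⟩
      obtain ⟨rfl, rfl⟩ := h1.uniq h2
      rfl
  have e1 := card_filter_add_card_filter_not (s := (Tl M n k s).filter fun T => X (V t s T))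
    fun T => V t s T j
  have e2 := card_filter_add_card_filter_not (s := (Tl M n k s).filter fun T => V t s T j)
    fun T => X (V t s T)
  rw [filter_comm] at e2
  have e3 : cnt t M n k (fun σ => σ j) s = ((Tl M n k s).filter fun T => V t s T j).card := by
    unfold cnt
    congr
  rw [e3]
  unfold cnt
  omega

end Pool.Agent.P.MP_ed1e41_co.Hull
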